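import Pool.Agent.PKG.Hall

/-!
PKG-C1 (MP_36eb6d_co).  A perfect matching that is not forced into three given cells.

If all perfect matchings agree in the rows `i1, i2, i3` then `C1_side` (Hall) gives for each of these rows disjoint sets `P`, `Q`
closed under out-neighbours and in-neighbours; `C1_step` makes them avoid `i1, i2, i3`, and both have at least `r` elements.
-/

set_option autoImplicit false

namespace Pool.Agent.PKG

private theorem C1_side {n : ℕ} (B : Fin n → Fin n → Prop) (hr : ∀ i, B i i) (e : Fin n)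
    (hno : ¬ ∃ σ : P n, (∀ i, B i (σ i)) ∧ σ e ≠ e) :
    ∃ P Q : Finset (Fin n), e ∉ P ∧ e ∉ Q ∧ (∀ i ∈ P, i ∉ Q) ∧
      (∀ i ∈ P, ∀ j, B i j → j ∈ P) ∧ (∀ j ∈ Q, ∀ i, B i j → i ∈ Q) ∧
      (∀ j, B e j → j ≠ e → j ∈ P) ∧ (∀ i, B i e → i ≠ e → i ∈ Q) := by
  classical
  obtain ⟨S, T, h1, h2⟩ := hall_rect (fun i t => B i t ∧ ¬ (i = e ∧ t = e)) (by
    rintro ⟨σ, hσ⟩
    exact hno ⟨σ, fun i => (hσ i).1, fun h => (hσ e).2 ⟨rfl, h⟩⟩)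
  have h3 : S ∩ T ⊆ {e} := by
    intro i hi
    rw [Finset.mem_inter] at hi
    rw [Finset.mem_singleton]
    by_contra hne
    exact h2 i hi.1 i hi.2 ⟨hr i, fun h => hne h.1⟩
  have h4 := Finset.card_union_add_card_inter S T
  have h5 : (S ∪ T).card ≤ n := (Finset.card_le_univ _).trans (by rw [Fintype.card_fin])
  have h6 : (S ∩ T).card ≤ 1 := (Finset.card_le_card h3).trans (by simp)
  have h7 : S ∪ T = Finset.univ := by
    rw [← Finset.card_eq_iff_eq_univ, Fintype.card_fin]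
    omega
  have h8 : e ∈ S ∩ T := by
    have h9 : (S ∩ T).Nonempty := Finset.card_pos.1 (by omega)
    obtain ⟨i, hi⟩ := h9
    have h10 := h3 hi
    rw [Finset.mem_singleton] at h10
    rwa [← h10]
  rw [Finset.mem_inter] at h8
  have h9 : ∀ i, i ∈ S ∨ i ∈ T := by
    intro i
    have := Finset.mem_univ i
    rw [← h7, Finset.mem_union] at this
    exact this
  refine ⟨S.erase e, T.erase e, by simp, by simp, ?_, ?_, ?_, ?_, ?_⟩
  · intro i hi hi'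
    rw [Finset.mem_erase] at hi hi'
    have := h3 (Finset.mem_inter.2 ⟨hi.2, hi'.2⟩)
    rw [Finset.mem_singleton] at this
    exact hi.1 this
  · intro i hi j hij
    rw [Finset.mem_erase] at hi ⊢
    have hj : j ∉ T := fun hj => h2 i hi.2 j hj ⟨hij, fun h => hi.1 h.1⟩
    exact ⟨fun h => hj (by rw [h]; exact h8.2), (h9 j).resolve_right hj⟩
  · intro j hj i hij
    rw [Finset.mem_erase] at hj ⊢
    have hi : i ∉ S := fun hi => h2 i hi j hj.2 ⟨hij, fun h => hj.1 h.2⟩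
    exact ⟨fun h => hi (by rw [h]; exact h8.1), (h9 i).resolve_left hi⟩
  · intro j hj hne
    rw [Finset.mem_erase]
    have hj' : j ∉ T := fun hj' => h2 e h8.1 j hj' ⟨hj, fun h => hne h.2⟩
    exact ⟨hne, (h9 j).resolve_right hj'⟩
  · intro i hi hne
    rw [Finset.mem_erase]
    have hi' : i ∉ S := fun hi' => h2 i hi' e h8.2 ⟨hi, fun h => hne h.1⟩
    exact ⟨hne, (h9 i).resolve_left hi'⟩

private theorem C1_step {n : ℕ} (B : Fin n → Fin n → Prop) (hout : ∀ i, ∃ j, j ≠ i ∧ B i j)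
    (X P : Finset (Fin n)) (e : Fin n) (hX : X.Nonempty) (hXc : ∀ i ∈ X, ∀ j, B i j → j ∈ X)
    (hPc : ∀ i ∈ P, ∀ j, B i j → j ∈ P) (he : e ∉ P) (hPe : ∀ j, B e j → j ≠ e → j ∈ P) :
    ∃ X' : Finset (Fin n), X' ⊆ X ∧ X'.Nonempty ∧ (∀ i ∈ X', ∀ j, B i j → j ∈ X') ∧ e ∉ X' := by
  classical
  by_cases h : e ∈ X
  · obtain ⟨j, j1, j2⟩ := hout e
    refine ⟨X ∩ P, Finset.inter_subset_left, ⟨j, Finset.mem_inter.2 ⟨hXc e h j j2, hPe j j2 j1⟩⟩, ?_, ?_⟩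
    · intro i hi k hik
      rw [Finset.mem_inter] at hi ⊢
      exact ⟨hXc i hi.1 k hik, hPc i hi.2 k hik⟩
    · exact fun h' => he (Finset.mem_inter.1 h').2
  · exact ⟨X, fun _ hx => hx, hX, hXc, h⟩

private theorem C1_set {n : ℕ} (B : Fin n → Fin n → Prop) (hout : ∀ i, ∃ j, j ≠ i ∧ B i j)
    (P1 P2 P3 : Finset (Fin n)) (i1 i2 i3 : Fin n)
    (c1 : ∀ i ∈ P1, ∀ j, B i j → j ∈ P1) (c2 : ∀ i ∈ P2, ∀ j, B i j → j ∈ P2)
    (c3 : ∀ i ∈ P3, ∀ j, B i j → j ∈ P3) (e1 : i1 ∉ P1) (e2 : i2 ∉ P2) (e3 : i3 ∉ P3)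
    (o1 : ∀ j, B i1 j → j ≠ i1 → j ∈ P1) (o2 : ∀ j, B i2 j → j ≠ i2 → j ∈ P2)
    (o3 : ∀ j, B i3 j → j ≠ i3 → j ∈ P3) :
    ∃ X : Finset (Fin n), X ⊆ P1 ∧ X.Nonempty ∧ (∀ i ∈ X, ∀ j, B i j → j ∈ X) ∧ i1 ∉ X ∧ i2 ∉ X ∧
      i3 ∉ X := by
  obtain ⟨j, j1, j2⟩ := hout i1
  obtain ⟨X2, s2, n2, k2, m2⟩ := C1_step B hout P1 P2 i2 ⟨j, o1 j j2 j1⟩ c1 c2 e2 o2
  obtain ⟨X3, s3, n3, k3, m3⟩ := C1_step B hout X2 P3 i3 n2 k2 c3 e3 o3
  exact ⟨X3, s3.trans s2, n3, k3, fun h => e1 (s2 (s3 h)), fun h => m2 (s3 h), m3⟩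

theorem c1 {h r : ℕ} (hh : 5 ≤ h) (hr : h ≤ r + 1) (A : Fin (2 * h) → Fin (2 * h) → Prop)
    (hA : Deg (2 * h) r A) (hPM : ∃ π : P (2 * h), ∀ i, A i (π i)) (μ : P (2 * h))
    (i1 i2 i3 : Fin (2 * h)) (h12 : i1 ≠ i2) (h13 : i1 ≠ i3) (h23 : i2 ≠ i3) :
    ∃ π : P (2 * h), (∀ i, A i (π i)) ∧ ¬ (π i1 = μ i1 ∧ π i2 = μ i2 ∧ π i3 = μ i3) := by
  classical
  by_contra hcon
  have H : ∀ π' : P (2 * h), (∀ i, A i (π' i)) → π' i1 = μ i1 ∧ π' i2 = μ i2 ∧ π' i3 = μ i3 := by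
    intro π' h'
    by_contra h
    exact hcon ⟨π', h', h⟩
  obtain ⟨π, hπ⟩ := hPM
  obtain ⟨B, hB⟩ : ∃ B : Fin (2 * h) → Fin (2 * h) → Prop, ∀ i j, B i j ↔ A i (π j) :=
    ⟨_, fun i j => Iff.rfl⟩
  have hrf : ∀ i, B i i := fun i => (hB i i).2 (hπ i)
  have hσ : ∀ σ : P (2 * h), (∀ i, B i (σ i)) →
      π (σ i1) = μ i1 ∧ π (σ i2) = μ i2 ∧ π (σ i3) = μ i3 := by
    intro σ hs
    exact H (σ.trans π) fun i => (hB i (σ i)).1 (hs i)
  have hid := hσ 1 hrf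
  have hout' : ∀ i, ∃ F : Finset (Fin (2 * h)), r ≤ F.card ∧ ∀ j ∈ F, B i j := by
    intro i
    obtain ⟨F, k1, k2⟩ := hA.1 i
    refine ⟨F.map π.symm.toEmbedding, by rwa [Finset.card_map], ?_⟩
    intro j hj
    obtain ⟨t, ht, rfl⟩ := Finset.mem_map.1 hj
    rw [hB]
    show A i (π (π.symm t))
    rw [Equiv.apply_symm_apply]
    exact k2 t ht
  have hin' : ∀ j, ∃ F : Finset (Fin (2 * h)), r ≤ F.card ∧ ∀ i ∈ F, B i j := by
    intro j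
    obtain ⟨F, k1, k2⟩ := hA.2 (π j)
    exact ⟨F, k1, fun i hi => (hB _ _).2 (k2 i hi)⟩
  have hout : ∀ i, ∃ j, j ≠ i ∧ B i j := by
    intro i
    obtain ⟨F, k1, k2⟩ := hout' i
    obtain ⟨t, ht, hne⟩ := Finset.exists_mem_ne (by omega : 1 < F.card) i
    exact ⟨t, hne, k2 t ht⟩
  have hin : ∀ j, ∃ i, i ≠ j ∧ B i j := by
    intro j
    obtain ⟨F, k1, k2⟩ := hin' j
    obtain ⟨t, ht, hne⟩ := Finset.exists_mem_ne (by omega : 1 < F.card) j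
    exact ⟨t, hne, k2 t ht⟩
  obtain ⟨P1, Q1, a1, a2, a3, a4, a5, a6, a7⟩ := C1_side B hrf i1 (by
    rintro ⟨σ, h1, h2⟩
    exact h2 (π.injective ((hσ σ h1).1.trans hid.1.symm)))
  obtain ⟨P2, Q2, b1, b2, b3, b4, b5, b6, b7⟩ := C1_side B hrf i2 (by
    rintro ⟨σ, h1, h2⟩
    exact h2 (π.injective ((hσ σ h1).2.1.trans hid.2.1.symm)))
  obtain ⟨P3, Q3, d1, d2, d3, d4, d5, d6, d7⟩ := C1_side B hrf i3 (by
    rintro ⟨σ, h1, h2⟩
    exact h2 (π.injective ((hσ σ h1).2.2.trans hid.2.2.symm)))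
  obtain ⟨X, x1, x2, x3, x4, x5, x6⟩ := C1_set B hout P1 P2 P3 i1 i2 i3 a4 b4 d4 a1 b1 d1 a6 b6 d6
  obtain ⟨Y, y1, y2, y3, y4, y5, y6⟩ := C1_set (fun i j => B j i) hin Q1 Q2 Q3 i1 i2 i3 a5 b5 d5 a2 b2 d2
    a7 b7 d7
  have hXr : r ≤ X.card := by
    obtain ⟨x, hx⟩ := x2
    obtain ⟨F, k1, k2⟩ := hout' x
    exact k1.trans (Finset.card_le_card fun j hj => x3 x hx j (k2 j hj))
  have hYr : r ≤ Y.card := by
    obtain ⟨y, hy⟩ := y2
    obtain ⟨F, k1, k2⟩ := hin' y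
    exact k1.trans (Finset.card_le_card fun j hj => y3 y hy j (k2 j hj))
  have hXY : Disjoint X Y := by
    rw [Finset.disjoint_left]
    intro i hi hi'
    exact a3 i (x1 hi) (y1 hi')
  have hI : ({i1, i2, i3} : Finset (Fin (2 * h))).card = 3 := by
    rw [Finset.card_eq_three]
    exact ⟨i1, i2, i3, h12, h13, h23, rfl⟩
  have hD : Disjoint ({i1, i2, i3} : Finset (Fin (2 * h))) (X ∪ Y) := by
    rw [Finset.disjoint_left]
    intro i hi hi'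
    rw [Finset.mem_insert, Finset.mem_insert, Finset.mem_singleton] at hi
    rw [Finset.mem_union] at hi'
    rcases hi with rfl | rfl | rfl
    · exact hi'.elim x4 y4
    · exact hi'.elim x5 y5
    · exact hi'.elim x6 y6
  have hc : (({i1, i2, i3} : Finset (Fin (2 * h))) ∪ (X ∪ Y)).card ≤ 2 * h :=
    (Finset.card_le_univ _).trans (by rw [Fintype.card_fin])
  rw [Finset.card_union_of_disjoint hD, Finset.card_union_of_disjoint hXY, hI] at hc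
  omega

end Pool.Agent.PKG
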