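import Pool.Agent.PKG.Hall

/-!
PKG-Cand (MP_36eb6d_co).  The shape of `h + 1` permutations of `2 h` elements to which no permutation
is disjoint.  (Compare Pool/Agent/PKF/Cand.lean, the case `h = 3` with three permutations `a b c`.)

The sets `S, T` of a bad set `insert d Q` (Hall rectangles), and their relations for two different bad sets.
-/

set_option autoImplicit false

namespace Pool.Agent.PKG

private theorem cand_cnt {n h : ℕ} {Q : Finset (P n)} (hQ : Q.card ≤ h) {T : Finset (Fin n)}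
    (hT : T.card = h + 1) {i x : Fin n} (hc : ∀ t ∈ T, t = x ∨ ∃ q ∈ Q, t = q i) :
    Q.card = h ∧ x ∈ T ∧ (∀ q ∈ Q, q i ∈ T) ∧ (∀ q ∈ Q, q i ≠ x) ∧
      ∀ q ∈ Q, ∀ q' ∈ Q, q i = q' i → q = q' := by
  have hs : T ⊆ insert x (Q.image fun q => q i) := by
    intro t ht
    rw [Finset.mem_insert, Finset.mem_image]
    rcases hc t ht with e | ⟨q, hq, e⟩
    · exact Or.inl e
    · exact Or.inr ⟨q, hq, e.symm⟩
  have h1 := Finset.card_insert_le x (Q.image fun q => q i)
  have h2 : (Q.image fun q => q i).card ≤ Q.card := Finset.card_image_le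
  have h3 := Finset.card_le_card hs
  have he : T = insert x (Q.image fun q => q i) := Finset.eq_of_subset_of_card_le hs (by omega)
  have hx : x ∉ Q.image fun q => q i := by
    intro hx
    rw [Finset.insert_eq_of_mem hx] at he
    rw [← he] at h2
    omega
  have hinj : Set.InjOn (fun q : P n => q i) Q := by
    refine Finset.card_image_iff.1 ?_
    rw [Finset.card_insert_of_notMem hx] at h1 h3
    omega
  refine ⟨by omega, ?_, ?_, ?_, ?_⟩
  · rw [he]
    exact Finset.mem_insert_self _ _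
  · intro q hq
    rw [he]
    exact Finset.mem_insert_of_mem (Finset.mem_image_of_mem _ hq)
  · intro q hq e
    apply hx
    rw [← e]
    exact Finset.mem_image_of_mem (fun q : P n => q i) hq
  · intro q hq q' hq' e
    exact hinj hq hq' e

private theorem cand_le {n : ℕ} {Q : Finset (P n)} {T : Finset (Fin n)} {i x : Fin n}
    (hc : ∀ t ∈ T, t = x ∨ ∃ q ∈ Q, t = q i) : T.card ≤ Q.card + 1 := by
  have hs : T ⊆ insert x (Q.image fun q => q i) := by
    intro t ht
    rw [Finset.mem_insert, Finset.mem_image]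
    rcases hc t ht with e | ⟨q, hq, e⟩
    · exact Or.inl e
    · exact Or.inr ⟨q, hq, e.symm⟩
  have h1 := Finset.card_insert_le x (Q.image fun q => q i)
  have h2 : (Q.image fun q => q i).card ≤ Q.card := Finset.card_image_le
  have h3 := Finset.card_le_card hs
  omega

private theorem cand_ia {n : ℕ} (a : P n) (i : Fin n) : a⁻¹ (a i) = i := a.symm_apply_apply i

private theorem cand_ai {n : ℕ} (a : P n) (i : Fin n) : a (a⁻¹ i) = i := a.apply_symm_apply i

theorem cand_facts {n h : ℕ} (hh : 1 ≤ h) {Q : Finset (P n)} (hQ : Q.card ≤ h) {d : P n}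
    {S T : Finset (Fin n)} (hc : Cand h Q d S T) :
    Q.card = h ∧ ∀ i ∈ S, d i ∈ T ∧ (∀ q ∈ Q, q i ∈ T) ∧ (∀ q ∈ Q, q i ≠ d i) ∧
      ∀ q ∈ Q, ∀ q' ∈ Q, q i = q' i → q = q' := by
  obtain ⟨hS, hT, h1⟩ := hc
  obtain ⟨i0, hi0⟩ := Finset.card_pos.1 (show 0 < S.card by omega)
  have h2 := fun i (hi : i ∈ S) => cand_cnt hQ hT (i := i) (x := d i) (h1 i hi)
  exact ⟨(h2 i0 hi0).1, fun i hi => (h2 i hi).2⟩

theorem block_facts {n h : ℕ} {Q : Finset (P n)} (hQ : Q.card ≤ h) {μ : P n}
    {D : Finset (Fin n)} (hD : D.card = h + 1) (hb : Block Q μ D) :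
    Q.card = h ∧ ∀ i ∈ D, (∀ q ∈ Q, q i ∈ D.image μ) ∧ (∀ q ∈ Q, q i ≠ μ i) ∧
      ∀ q ∈ Q, ∀ q' ∈ Q, q i = q' i → q = q' := by
  have hT : (D.image μ).card = h + 1 := by
    rw [Finset.card_image_of_injective _ μ.injective, hD]
  obtain ⟨i0, hi0⟩ := Finset.card_pos.1 (show 0 < D.card by omega)
  have h2 := fun i (hi : i ∈ D) => cand_cnt hQ hT (i := i) (x := μ i) (hb i hi)
  exact ⟨(h2 i0 hi0).1, fun i hi => (h2 i hi).2.2⟩

theorem mem_inv {n : ℕ} {Q : Finset (P n)} {q : P n} : q ∈ inv Q ↔ q⁻¹ ∈ Q := by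
  unfold inv
  rw [Finset.mem_image]
  constructor
  · rintro ⟨r, hr, rfl⟩
    rwa [inv_inv]
  · intro h
    exact ⟨q⁻¹, h, inv_inv q⟩

theorem inv_inv' {n : ℕ} (Q : Finset (P n)) : inv (inv Q) = Q := by
  ext q
  rw [mem_inv, mem_inv, inv_inv]

theorem card_inv {n : ℕ} (Q : Finset (P n)) : (inv Q).card = Q.card := by
  unfold inv
  exact Finset.card_image_of_injective _ inv_injective

theorem bad_cases {h : ℕ} (Q : Finset (P (2 * h))) (hQ : Q.card ≤ h) (d : P (2 * h))
    (hb : Bad (insert d Q)) :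
    (∃ S T, Cand h Q d S T) ∨ (∃ S T, Cand h (inv Q) d⁻¹ S T) := by
  obtain ⟨S, T, h7, hST⟩ := hall_rect (fun i t => ∀ q ∈ insert d Q, t ≠ q i) (by
    rintro ⟨π, hπ⟩
    exact hb ⟨π, fun q hq i => hπ i q hq⟩)
  have hcell : ∀ i ∈ S, ∀ t ∈ T, t = d i ∨ ∃ q ∈ Q, t = q i := by
    intro i hi t ht
    have h1 := hST i hi t ht
    push Not at h1
    obtain ⟨q, hq, e⟩ := h1
    rcases Finset.mem_insert.1 hq with h2 | h2
    · left
      rw [e, h2]
    · exact Or.inr ⟨q, h2, e⟩
  have hcell' : ∀ t ∈ T, ∀ i ∈ S, i = d⁻¹ t ∨ ∃ q ∈ inv Q, i = q t := by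
    intro t ht i hi
    rcases hcell i hi t ht with e | ⟨q, hq, e⟩
    · exact Or.inl (by rw [e, cand_ia])
    · refine Or.inr ⟨q⁻¹, ?_, by rw [e, cand_ia]⟩
      rw [mem_inv, inv_inv]
      exact hq
  have hS6 : S.card ≤ 2 * h := (Finset.card_le_univ _).trans (by rw [Fintype.card_fin])
  have hT6 : T.card ≤ 2 * h := (Finset.card_le_univ _).trans (by rw [Fintype.card_fin])
  obtain ⟨i0, hi0⟩ := Finset.card_pos.1 (show 0 < S.card by omega)
  obtain ⟨t0, ht0⟩ := Finset.card_pos.1 (show 0 < T.card by omega)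
  have hT1 := cand_le (hcell i0 hi0)
  have hS1 := cand_le (hcell' t0 ht0)
  rw [card_inv] at hS1
  by_cases h4 : T.card = h + 1
  · left
    obtain ⟨S', hS', hc3⟩ := Finset.exists_subset_card_eq (show h ≤ S.card by omega)
    exact ⟨S', T, hc3, h4, fun i hi => hcell i (hS' hi)⟩
  · right
    exact ⟨T, S, by omega, by omega, hcell'⟩

theorem cand_AA {h : ℕ} (hh : 5 ≤ h) {Q : Finset (P (2 * h))} (hQ : Q.card ≤ h)
    {d d' : P (2 * h)} {S T S' T' : Finset (Fin (2 * h))} (h1 : Cand h Q d S T)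
    (h2 : Cand h Q d' S' T') : T = T' := by
  by_contra hne
  obtain ⟨hQh, f1⟩ := cand_facts (by omega) hQ h1
  obtain ⟨-, f2⟩ := cand_facts (by omega) hQ h2
  obtain ⟨hS, hT, -⟩ := h1
  obtain ⟨hS', hT', -⟩ := h2
  have hTT := Finset.card_inter_add_card_union T T'
  have hSS := Finset.card_inter_add_card_union S S'
  have hTD := Finset.card_sdiff_add_card_inter T T'
  have hTI : (T ∩ T').card ≤ h := by
    by_contra hh
    have e1 : T ∩ T' = T := Finset.eq_of_subset_of_card_le Finset.inter_subset_left (by omega)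
    have e2 : T ∩ T' = T' := Finset.eq_of_subset_of_card_le Finset.inter_subset_right (by omega)
    exact hne (e1.symm.trans e2)
  obtain ⟨q0, hq0⟩ := Finset.card_pos.1 (show 0 < Q.card by omega)
  have hle : (S ∪ S').card ≤ (T ∪ T').card := by
    refine Finset.card_le_card_of_injOn (fun i => q0 i) (fun i hi => ?_) (fun x _ y _ e => q0.injective e)
    rcases Finset.mem_union.1 (Finset.mem_coe.1 hi) with hi | hi
    · exact Finset.mem_coe.2 (Finset.mem_union_left _ ((f1 i hi).2.1 q0 hq0))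
    · exact Finset.mem_coe.2 (Finset.mem_union_right _ ((f2 i hi).2.1 q0 hq0))
  rcases Finset.eq_empty_or_nonempty (S ∩ S') with he | ⟨i0, hi0⟩
  · -- disjoint sets of rows
    rw [he, Finset.card_empty] at hSS
    have hTu : (T ∪ T').card ≤ 2 * h := (Finset.card_le_univ _).trans (by rw [Fintype.card_fin])
    have hU : S ∪ S' = Finset.univ := by
      refine Finset.eq_univ_of_card _ ?_
      rw [Fintype.card_fin]
      omega
    have hall : ∀ t ∈ T \ T', ∀ i ∈ S, ∃ q ∈ Q, q i = t := by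
      intro t ht
      rw [Finset.mem_sdiff] at ht
      have e1 : ∀ q ∈ Q, q⁻¹ t ∈ S := by
        intro q hq
        have h3 : q⁻¹ t ∈ S ∪ S' := by
          rw [hU]
          exact Finset.mem_univ _
        rcases Finset.mem_union.1 h3 with h4 | h4
        · exact h4
        · have h5 := (f2 _ h4).2.1 q hq
          rw [cand_ai] at h5
          exact absurd h5 ht.2
      have e2 : Set.InjOn (fun q : P (2 * h) => q⁻¹ t) Q := by
        intro q hq q' hq' e
        have e' : q⁻¹ t = q'⁻¹ t := e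
        refine (f1 _ (e1 q hq)).2.2.2 q hq q' hq' ?_
        rw [cand_ai, e', cand_ai]
      have e3 : Q.image (fun q : P (2 * h) => q⁻¹ t) = S := by
        refine Finset.eq_of_subset_of_card_le ?_ ?_
        · intro i hi
          obtain ⟨q, hq, rfl⟩ := Finset.mem_image.1 hi
          exact e1 q hq
        · rw [Finset.card_image_iff.2 e2]
          omega
      intro i hi
      rw [← e3] at hi
      obtain ⟨q, hq, rfl⟩ := Finset.mem_image.1 hi
      exact ⟨q, hq, cand_ai q t⟩
    have hd : ∀ i ∈ S, d i ∈ T ∩ T' := by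
      intro i hi
      have h3 := f1 i hi
      rw [Finset.mem_inter]
      refine ⟨h3.1, ?_⟩
      by_contra h4
      obtain ⟨q, hq, e⟩ := hall (d i) (Finset.mem_sdiff.2 ⟨h3.1, h4⟩) i hi
      exact h3.2.2.1 q hq e
    have h5 : S.card ≤ (T ∩ T').card :=
      Finset.card_le_card_of_injOn (fun i => d i) (fun i hi => hd i hi) (fun x _ y _ e => d.injective e)
    omega
  · -- a common row
    have hcom : ∀ i ∈ S ∩ S', h ≤ (T ∩ T').card ∧ d i ∈ T \ T' := by
      intro i hi
      rw [Finset.mem_inter] at hi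
      have h3 := f1 i hi.1
      have h4 := f2 i hi.2
      have e1 : (Q.image fun q => q i) ⊆ T ∩ T' := by
        intro t ht
        obtain ⟨q, hq, rfl⟩ := Finset.mem_image.1 ht
        exact Finset.mem_inter.2 ⟨h3.2.1 q hq, h4.2.1 q hq⟩
      have e2 : (Q.image fun q => q i).card = h := by
        rw [Finset.card_image_iff.2 fun q hq q' hq' e => h3.2.2.2 q hq q' hq' e]
        exact hQh
      have e3 := Finset.card_le_card e1
      have e4 : (Q.image fun q => q i) = T ∩ T' := Finset.eq_of_subset_of_card_le e1 (by omega)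
      refine ⟨by omega, ?_⟩
      rw [Finset.mem_sdiff]
      refine ⟨h3.1, fun h5 => ?_⟩
      have h6 : d i ∈ T ∩ T' := Finset.mem_inter.2 ⟨h3.1, h5⟩
      rw [← e4] at h6
      obtain ⟨q, hq, e⟩ := Finset.mem_image.1 h6
      exact h3.2.2.1 q hq e
    have h3 := (hcom i0 hi0).1
    have h4 : (S ∩ S').card ≤ (T \ T').card :=
      Finset.card_le_card_of_injOn (fun i => d i) (fun i hi => (hcom i hi).2) (fun x _ y _ e => d.injective e)
    omega

theorem cand_AC {h : ℕ} (hh : 5 ≤ h) {Q : Finset (P (2 * h))} (hQ : Q.card ≤ h)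
    {d e : P (2 * h)} {S T S' T' : Finset (Fin (2 * h))} (h1 : Cand h Q d S T)
    (h2 : Cand h (inv Q) e T' S') : T' ⊆ T := by
  intro t ht
  by_contra htT
  obtain ⟨hQh, f1⟩ := cand_facts (by omega) hQ h1
  obtain ⟨hQh', f2⟩ := cand_facts (by omega) (by rw [card_inv]; exact hQ) h2
  obtain ⟨hS, hT, hc⟩ := h1
  obtain ⟨hT', hS', -⟩ := h2
  have hX : ∀ x ∈ T', x ∉ T → ((inv Q).image fun q => q x) = Sᶜ := by
    intro x hx hxT
    refine Finset.eq_of_subset_of_card_le ?_ ?_
    · intro i hi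
      obtain ⟨q, hq, rfl⟩ := Finset.mem_image.1 hi
      rw [Finset.mem_compl]
      intro h3
      have h4 := (f1 _ h3).2.1 q⁻¹ (mem_inv.1 hq)
      rw [cand_ia] at h4
      exact hxT h4
    · rw [Finset.card_image_iff.2 fun q hq q' hq' e => (f2 x hx).2.2.2 q hq q' hq' e, Finset.card_compl,
        Fintype.card_fin]
      omega
  have hXS : Sᶜ ⊆ S' := by
    rw [← hX t ht htT]
    intro i hi
    obtain ⟨q, hq, rfl⟩ := Finset.mem_image.1 hi
    exact (f2 t ht).2.1 q hq
  have hI : (S' ∩ S).card = 1 := by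
    have h3 := Finset.card_sdiff_add_card_inter S' S
    have h4 : S' \ S = Sᶜ := by
      ext i
      rw [Finset.mem_sdiff, Finset.mem_compl]
      exact ⟨fun h => h.2, fun h => ⟨hXS (Finset.mem_compl.2 h), h⟩⟩
    rw [h4, Finset.card_compl, Fintype.card_fin] at h3
    omega
  have he : ∀ x ∈ T', x ∉ T → e x ∈ S' ∩ S := by
    intro x hx hxT
    rw [Finset.mem_inter]
    refine ⟨(f2 x hx).1, ?_⟩
    by_contra h3
    have h4 : e x ∈ ((inv Q).image fun q => q x) := by
      rw [hX x hx hxT]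
      exact Finset.mem_compl.2 h3
    obtain ⟨q, hq, h5⟩ := Finset.mem_image.1 h4
    exact (f2 x hx).2.2.1 q hq h5
  obtain ⟨t', ht', hne⟩ := Finset.exists_mem_ne (show 1 < T'.card by omega) t
  by_cases h3 : t' ∈ T
  · have h4 : (S.filter fun i => d i ≠ t') ⊆ S' ∩ S := by
      intro i hi
      rw [Finset.mem_filter] at hi
      rw [Finset.mem_inter]
      refine ⟨?_, hi.1⟩
      rcases hc i hi.1 t' h3 with e1 | ⟨q, hq, e1⟩
      · exact absurd e1.symm hi.2
      · have h5 := (f2 t' ht').2.1 q⁻¹ (by rw [mem_inv, inv_inv]; exact hq)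
        rw [e1, cand_ia] at h5
        exact h5
    have h5 := Finset.card_le_card h4
    have h6 : (S.filter fun i => ¬ d i ≠ t').card ≤ 1 := by
      refine Finset.card_le_one.2 fun x hx y hy => ?_
      rw [Finset.mem_filter, not_not] at hx hy
      exact d.injective (hx.2.trans hy.2.symm)
    have h7 := Finset.card_filter_add_card_filter_not (s := S) (fun i => d i ≠ t')
    omega
  · obtain ⟨z, hz⟩ := Finset.card_eq_one.1 hI
    have h4 := he t ht htT
    have h5 := he t' ht' h3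
    rw [hz, Finset.mem_singleton] at h4 h5
    exact hne (e.injective (h5.trans h4.symm))

end Pool.Agent.PKG
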