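import Mathlib

/-!
PKG = MP_36eb6d_co, hand-in `TwoKMinusFour`: for every k >= 7, mad(G) < k implies correspondence
packing number at most 2k - 4.  Notation: `h = k - 2 ≥ 5`, `n = 2 * h` colours.  Paper proof:
/team-store/pkg_proof.md.  Definitions used by all modules.
-/

set_option autoImplicit false

namespace Pool.Agent.PKG

/-- permutations of `n` colours -/
abbrev P (n : ℕ) := Equiv.Perm (Fin n)

/-- every row and every column of the relation `A` (rows `i`, columns `t`) contains at least `r`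
cells of `A` -/
def Deg (n r : ℕ) (A : Fin n → Fin n → Prop) : Prop :=
  (∀ i, ∃ F : Finset (Fin n), r ≤ F.card ∧ ∀ t ∈ F, A i t) ∧
  (∀ t, ∃ F : Finset (Fin n), r ≤ F.card ∧ ∀ i ∈ F, A i t)

/-- no permutation is disjoint from all members of `Q` -/
def Bad {n : ℕ} (Q : Finset (P n)) : Prop := ¬ ∃ π : P n, ∀ q ∈ Q, ∀ i, π i ≠ q i

/-- the set of the inverses -/
def inv {n : ℕ} (Q : Finset (P n)) : Finset (P n) := Q.image (fun q => q⁻¹)

/-- rows `S` (`h` of them) and columns `T` (`h + 1` of them) such that in each row of `S` the values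
of `d` and of the members of `Q` fill `T` -/
def Cand {n : ℕ} (h : ℕ) (Q : Finset (P n)) (d : P n) (S T : Finset (Fin n)) : Prop :=
  S.card = h ∧ T.card = h + 1 ∧ ∀ i ∈ S, ∀ t ∈ T, t = d i ∨ ∃ q ∈ Q, t = q i

/-- in each row of `D` the values of `μ` and of the members of `Q` fill `μ(D)` -/
def Block {n : ℕ} (Q : Finset (P n)) (μ : P n) (D : Finset (Fin n)) : Prop :=
  ∀ i ∈ D, ∀ t ∈ D.image μ, t = μ i ∨ ∃ q ∈ Q, t = q i

/-- the conclusion of Lemma M for `Q` -/
def Concl {n : ℕ} (h : ℕ) (Q : Finset (P n)) : Prop :=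
  ∃ (μ : P n) (D : Finset (Fin n)), D.card = h + 1 ∧
    (∀ d, Bad (insert d Q) → h ≤ (D.filter (fun i => d i = μ i)).card) ∧
    (Block Q μ D ∨
      ∃ F ⊆ D, h ≤ F.card + 1 ∧ ∀ d, Bad (insert d Q) → ∀ i ∈ F, d i = μ i)

/-- the degree of `v` inside `W` -/
def dg {V : Type} (G : SimpleGraph V) [DecidableRel G.Adj] (W : Finset V) (v : V) : ℕ :=
  (W.filter (fun u => G.Adj v u)).card

/-- `c` packs the subgraph induced on `W`: `c v i` is the colour of `v` in the `i`-th colouring -/
def IsPack {n : ℕ} {V : Type} (G : SimpleGraph V) (σ : V → V → P n) (W : Finset V)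
    (c : V → P n) : Prop :=
  ∀ u ∈ W, ∀ v ∈ W, G.Adj u v → ∀ i, c v i ≠ σ u v (c u i)

/-- the subgraph induced on `W` has a packing -/
def Packable {n : ℕ} {V : Type} (G : SimpleGraph V) (σ : V → V → P n) (W : Finset V) : Prop :=
  ∃ c : V → P n, IsPack G σ W c

end Pool.Agent.PKG
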