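import Pool.Agent.PKG.Defs

/-!
PKG-Disch (MP_36eb6d_co).  The discharging step.  (Compare Pool/Agent/PKF/Disch.lean.)

Plan.  Let `V1` be the set of the `v ∈ W` of degree `h + 1` (in `W`) and `U` the set of those of degree
at least `h + 3`.  A `v ∈ V1` has no neighbour of degree `h + 1` (`h1`) and at most one of degree `h + 2`
(`h2`), so at least `h` in `U`.  So `h |V1| ≤ ` number of adjacent pairs `(v, u)`, `v ∈ V1`, `u ∈ U`,
`= ∑_{u ∈ U} n(u)`, and `n(u) ≤ h (d(u) - h - 2)`: for `d(u) = h + 3` by `h3`, for `d(u) ≥ h + 4` as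
`n(u) ≤ d(u) ≤ h (d(u) - h - 2)` (`h ≥ 4`).  So `|V1| ≤ ∑_{u ∈ U} (d(u) - h - 2)`, and
`∑_{v ∈ W} d(v) = (h + 2) |W| - |V1| + ∑_{u ∈ U} (d(u) - h - 2) ≥ (h + 2) |W|`.
-/

set_option autoImplicit false

namespace Pool.Agent.PKG

variable {V : Type} [DecidableEq V]

theorem disch {h : ℕ} (hh : 5 ≤ h) (G : SimpleGraph V) [DecidableRel G.Adj] (W : Finset V)
    (h0 : ∀ v ∈ W, h + 1 ≤ dg G W v)
    (h1 : ∀ v ∈ W, dg G W v = h + 1 → ∀ u ∈ W, G.Adj v u → dg G W u ≠ h + 1)
    (h2 : ∀ v ∈ W, dg G W v = h + 1 → ∀ u1 ∈ W, ∀ u2 ∈ W, G.Adj v u1 → G.Adj v u2 →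
      dg G W u1 = h + 2 → dg G W u2 = h + 2 → u1 = u2)
    (h3 : ∀ u ∈ W, dg G W u = h + 3 →
      (W.filter (fun v => G.Adj u v ∧ dg G W v = h + 1)).card ≤ h) :
    (h + 2) * W.card ≤ ∑ v ∈ W, dg G W v := by
  classical
  set V4 := W.filter (fun v => dg G W v = h + 1) with hV4
  set U := W.filter (fun v => h + 3 ≤ dg G W v) with hU
  -- neighbours in `W`
  have hdg : ∀ v, dg G W v = (W.filter (fun u => G.Adj v u)).card := fun v => rfl
  -- every vertex of degree `h + 1` has at least `h` neighbours in `U`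
  have key1 : ∀ v ∈ V4, h ≤ (U.filter (fun u => G.Adj v u)).card := by
    intro v hv
    rw [hV4, Finset.mem_filter] at hv
    obtain ⟨hvW, hv4⟩ := hv
    have hsplit : W.filter (fun u => G.Adj v u) ⊆
        (U.filter (fun u => G.Adj v u)) ∪ (W.filter (fun u => G.Adj v u ∧ dg G W u = h + 2)) := by
      intro u hu
      rw [Finset.mem_filter] at hu
      have h4u := h0 u hu.1
      have hne := h1 v hvW hv4 u hu.1 hu.2
      rw [Finset.mem_union]
      rcases Nat.lt_or_ge (dg G W u) (h + 3) with h6 | h6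
      · right
        rw [Finset.mem_filter]
        exact ⟨hu.1, hu.2, by omega⟩
      · left
        rw [Finset.mem_filter, hU, Finset.mem_filter]
        exact ⟨⟨hu.1, h6⟩, hu.2⟩
    have hone : (W.filter (fun u => G.Adj v u ∧ dg G W u = h + 2)).card ≤ 1 := by
      rw [Finset.card_le_one]
      intro a ha b hb
      rw [Finset.mem_filter] at ha hb
      exact h2 v hvW hv4 a ha.1 b hb.1 ha.2.1 hb.2.1 ha.2.2 hb.2.2
    have hc := Finset.card_le_card hsplit
    have hu := Finset.card_union_le (U.filter (fun u => G.Adj v u))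
      (W.filter (fun u => G.Adj v u ∧ dg G W u = h + 2))
    have hd := hdg v
    omega
  have key2 : ∀ u ∈ U, (V4.filter (fun v => G.Adj v u)).card ≤ h * (dg G W u - (h + 2)) := by
    intro u hu
    rw [hU, Finset.mem_filter] at hu
    obtain ⟨huW, hu6⟩ := hu
    have he : V4.filter (fun v => G.Adj v u) =
        W.filter (fun v => G.Adj u v ∧ dg G W v = h + 1) := by
      ext v
      rw [hV4, Finset.mem_filter, Finset.mem_filter, Finset.mem_filter]
      constructor
      · rintro ⟨⟨a, b⟩, c⟩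
        exact ⟨a, c.symm, b⟩
      · rintro ⟨a, b, c⟩
        exact ⟨⟨a, c⟩, b.symm⟩
    rw [he]
    have hle : (W.filter (fun v => G.Adj u v ∧ dg G W v = h + 1)).card ≤ dg G W u := by
      rw [hdg]
      apply Finset.card_le_card
      intro v hv
      rw [Finset.mem_filter] at hv ⊢
      exact ⟨hv.1, hv.2.1⟩
    rcases Nat.lt_or_ge (dg G W u) (h + 4) with h7 | h7
    · have h8 := h3 u huW (by omega)
      have h9 : dg G W u - (h + 2) = 1 := by omega
      rw [h9, mul_one]
      exact h8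
    · obtain ⟨x, hx⟩ : ∃ x, dg G W u = h + 4 + x := ⟨dg G W u - (h + 4), by omega⟩
      have h9 : dg G W u - (h + 2) = 2 + x := by omega
      rw [h9]
      rw [hx] at hle
      have h10 : x ≤ h * x := Nat.le_mul_of_pos_left x (by omega)
      have h11 : h * (2 + x) = 2 * h + h * x := by ring
      omega
  have hdc : ∑ v ∈ V4, (U.filter (fun u => G.Adj v u)).card =
      ∑ u ∈ U, (V4.filter (fun v => G.Adj v u)).card := by
    simp only [Finset.card_filter]
    exact Finset.sum_comm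
  have h3V : h * V4.card ≤ h * ∑ u ∈ U, (dg G W u - (h + 2)) := by
    calc h * V4.card = ∑ v ∈ V4, h := by rw [Finset.sum_const, smul_eq_mul, mul_comm]
      _ ≤ ∑ v ∈ V4, (U.filter (fun u => G.Adj v u)).card := Finset.sum_le_sum key1
      _ = ∑ u ∈ U, (V4.filter (fun v => G.Adj v u)).card := hdc
      _ ≤ ∑ u ∈ U, h * (dg G W u - (h + 2)) := Finset.sum_le_sum key2
      _ = h * ∑ u ∈ U, (dg G W u - (h + 2)) := by rw [Finset.mul_sum]
  have h3W : V4.card ≤ ∑ u ∈ U, (dg G W u - (h + 2)) :=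
    Nat.le_of_mul_le_mul_left h3V (by omega)
  have hU' : ∑ u ∈ U, (dg G W u - (h + 2)) =
      ∑ v ∈ W, if h + 3 ≤ dg G W v then (dg G W v - (h + 2)) else 0 := by
    rw [hU, Finset.sum_filter]
  have hV' : V4.card = ∑ v ∈ W, if dg G W v = h + 1 then 1 else 0 := by
    rw [hV4, Finset.card_filter]
  have hpt : ∑ v ∈ W, ((h + 2) + if h + 3 ≤ dg G W v then (dg G W v - (h + 2)) else 0) ≤
      ∑ v ∈ W, (dg G W v + if dg G W v = h + 1 then 1 else 0) := by
    apply Finset.sum_le_sum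
    intro v hv
    have := h0 v hv
    split_ifs <;> omega
  have hA : ∑ v ∈ W, ((h + 2) + if h + 3 ≤ dg G W v then (dg G W v - (h + 2)) else 0) =
      (h + 2) * W.card + ∑ u ∈ U, (dg G W u - (h + 2)) := by
    rw [Finset.sum_add_distrib (f := fun _ => h + 2), Finset.sum_const, smul_eq_mul, ← hU', mul_comm]
  have hB : ∑ v ∈ W, (dg G W v + if dg G W v = h + 1 then 1 else 0) =
      ∑ v ∈ W, dg G W v + V4.card := by
    rw [Finset.sum_add_distrib, ← hV']
  rw [hA, hB] at hpt
  omega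

end Pool.Agent.PKG
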