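import Pool.Agent.PKG.LemM

/-!
PKG-Ext (MP_36eb6d_co).  Extending a packing to one more vertex; vertices of degree at most `h` and
adjacent vertices of degree `h + 1` are reducible.  (Compare Pool/Agent/PKF/Ext.lean, the case `h = 3`.)

Plan.
* `pack_update`: check the condition for the pairs `(v, u)`, `(u, v)` with `u ∈ W`; for `(v, u)` use
  `σ v u = (σ u v).symm`.
* `pack_mono`: restrict.
* `pack_small`: `W.erase v` has a packing `c`; the set `N` of the neighbours of `v` in `W` has at most
  `h` elements; `deg_compl N (fun u => σ u v * c u) h` and `hall_half` give the permutation for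
  `pack_update`.
* `pack_adj`: `c` packs `W' = (W.erase u).erase v`.  Let `N` be the neighbours of `v` in `W'`: at most `h`,
  and `M` those of `u` in `W'`: at most `h`.  `Q = N.image (fun w => σ w v * c w)`.  `lemM` for `Q` gives
  `μ, D`; let `i1 ≠ i2` in `D`.  `hall_two` for the complement of the permutations `σ w u * c w`,
  `w ∈ M` (`deg_compl`), with the cells `(i1, (σ u v).symm (μ i1))`, `(i2, (σ u v).symm (μ i2))`, gives
  a permutation `x` for `u`.  `d = σ u v * x` has `d i1 ≠ μ i1`, `d i2 ≠ μ i2`, so it agrees with `μ` on at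
  most `h - 1` rows of `D`, so `insert d Q` is not bad: there is a permutation for `v`.  Use
  `pack_update` twice (first `u`, then `v`).
-/

set_option autoImplicit false

namespace Pool.Agent.PKG

variable {V : Type} [DecidableEq V]

theorem pack_update {n : ℕ} (G : SimpleGraph V) (σ : V → V → P n)
    (hσ : ∀ u v, G.Adj u v → σ v u = (σ u v).symm) (W : Finset V) (v : V) (hv : v ∉ W)
    (c : V → P n) (hc : IsPack G σ W c) (π : P n)
    (hπ : ∀ u ∈ W, G.Adj u v → ∀ i, π i ≠ σ u v (c u i)) :
    IsPack G σ (insert v W) (Function.update c v π) := by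
  intro x hx y hy hxy i
  by_cases h1 : x = v
  · subst h1
    have h2 : y ≠ x := fun h => G.loopless.irrefl x (h ▸ hxy)
    have hy' : y ∈ W := (Finset.mem_insert.1 hy).resolve_left h2
    rw [Function.update_self, Function.update_of_ne h2, hσ y x hxy.symm]
    intro h3
    apply hπ y hy' hxy.symm i
    rw [h3, Equiv.apply_symm_apply]
  · have hx' : x ∈ W := (Finset.mem_insert.1 hx).resolve_left h1
    by_cases h2 : y = v
    · subst h2
      rw [Function.update_self, Function.update_of_ne h1]
      exact hπ x hx' hxy i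
    · have hy' : y ∈ W := (Finset.mem_insert.1 hy).resolve_left h2
      rw [Function.update_of_ne h2, Function.update_of_ne h1]
      exact hc x hx' y hy' hxy i

theorem pack_mono {n : ℕ} (G : SimpleGraph V) (σ : V → V → P n) {W W' : Finset V} (hW : W ⊆ W')
    {c : V → P n} (hc : IsPack G σ W' c) : IsPack G σ W c :=
  fun u hu v hv huv i => hc u (hW hu) v (hW hv) huv i

theorem pack_small {h : ℕ} (hh : 5 ≤ h) (G : SimpleGraph V) [DecidableRel G.Adj]
    (σ : V → V → P (2 * h)) (hσ : ∀ u v, G.Adj u v → σ v u = (σ u v).symm) (W : Finset V)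
    (v : V) (hv : v ∈ W) (hd : dg G W v ≤ h) (hp : Packable G σ (W.erase v)) :
    Packable G σ W := by
  obtain ⟨c, hc⟩ := hp
  have hd' : (W.filter (fun u => G.Adj v u)).card ≤ h := hd
  obtain ⟨π, hπ⟩ := hall_half _ (deg_compl (W.filter (fun u => G.Adj v u))
    (fun u => σ u v * c u) h (by omega))
  have h2 := pack_update G σ hσ (W.erase v) v (Finset.notMem_erase v W) c hc π (by
    intro u hu huv i
    exact hπ i u (Finset.mem_filter.2 ⟨Finset.mem_of_mem_erase hu, huv.symm⟩))
  rw [Finset.insert_erase hv] at h2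
  exact ⟨_, h2⟩

private theorem ext_nb {h : ℕ} (G : SimpleGraph V) [DecidableRel G.Adj] (W : Finset V) (u v : V)
    (hu : u ∈ W) (huv : G.Adj u v) (hdv : dg G W v = h + 1) (W' : Finset V)
    (hW : ∀ w, w ∈ W' ↔ w ∈ W ∧ w ≠ u ∧ w ≠ v) :
    (W'.filter (fun w => G.Adj v w)).card = h := by
  have h1 : (W.filter (fun w => G.Adj v w)) = insert u (W'.filter (fun w => G.Adj v w)) := by
    ext w
    rw [Finset.mem_insert, Finset.mem_filter, Finset.mem_filter, hW]
    constructor
    · rintro ⟨h2, h3⟩
      by_cases h4 : w = u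
      · exact Or.inl h4
      · exact Or.inr ⟨⟨h2, h4, fun h5 => G.loopless.irrefl v (h5 ▸ h3)⟩, h3⟩
    · rintro (h2 | ⟨h2, h3⟩)
      · subst h2
        exact ⟨hu, huv.symm⟩
      · exact ⟨h2.1, h3⟩
  have h2 : (W.filter (fun w => G.Adj v w)).card = h + 1 := hdv
  rw [h1, Finset.card_insert_of_notMem] at h2
  · omega
  · intro h3
    rw [Finset.mem_filter, hW] at h3
    exact h3.1.2.1 rfl

theorem pack_adj {h : ℕ} (hh : 5 ≤ h) (G : SimpleGraph V) [DecidableRel G.Adj]
    (σ : V → V → P (2 * h)) (hσ : ∀ u v, G.Adj u v → σ v u = (σ u v).symm) (W : Finset V)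
    (u v : V) (hu : u ∈ W) (hv : v ∈ W) (huv : G.Adj u v) (hdu : dg G W u = h + 1)
    (hdv : dg G W v = h + 1) (hp : Packable G σ ((W.erase u).erase v)) : Packable G σ W := by
  obtain ⟨c, hc⟩ := hp
  have hne : u ≠ v := huv.ne
  obtain ⟨W', hW'⟩ : ∃ W', W' = (W.erase u).erase v := ⟨_, rfl⟩
  rw [← hW'] at hc
  have hmem : ∀ w, w ∈ W' ↔ w ∈ W ∧ w ≠ u ∧ w ≠ v := by
    intro w
    rw [hW', Finset.mem_erase, Finset.mem_erase]
    tauto
  have hN := ext_nb G W u v hu huv hdv W' hmem
  have hM := ext_nb G W v u hv huv.symm hdu W' (by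
    intro w
    rw [hmem]
    tauto)
  have hQ : ((W'.filter (fun w => G.Adj v w)).image (fun w => σ w v * c w)).card ≤ h :=
    Finset.card_image_le.trans hN.le
  obtain ⟨μ, D, hD, hbad, -⟩ := lemM hh _ hQ
  obtain ⟨i1, h1, i2, h2, h12⟩ : ∃ i1 ∈ D, ∃ i2 ∈ D, i1 ≠ i2 :=
    Finset.one_lt_card.1 (show 1 < D.card by omega)
  obtain ⟨x, hx, hx1, hx2⟩ := hall_two (by omega) _ (deg_compl (W'.filter (fun w => G.Adj u w))
    (fun w => σ w u * c w) h (by omega)) i1 i2 ((σ u v).symm (μ i1)) ((σ u v).symm (μ i2)) h12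
    (fun he => h12 (μ.injective ((σ u v).symm.injective he)))
  have hd1 : σ u v (x i1) ≠ μ i1 := fun he => hx1 (by rw [← he, Equiv.symm_apply_apply])
  have hd2 : σ u v (x i2) ≠ μ i2 := fun he => hx2 (by rw [← he, Equiv.symm_apply_apply])
  have hnb : ¬ Bad (insert (σ u v * x)
      ((W'.filter (fun w => G.Adj v w)).image (fun w => σ w v * c w))) := by
    intro hb
    have h3 := hbad _ hb
    have h4 : D.filter (fun i => (σ u v * x) i = μ i) ⊆ (D.erase i1).erase i2 := by
      intro i hi
      rw [Finset.mem_filter] at hi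
      rw [Finset.mem_erase, Finset.mem_erase]
      refine ⟨?_, ?_, hi.1⟩
      · rintro rfl
        exact hd2 hi.2
      · rintro rfl
        exact hd1 hi.2
    have h5 := Finset.card_le_card h4
    rw [Finset.card_erase_of_mem (Finset.mem_erase.2 ⟨h12.symm, h2⟩),
      Finset.card_erase_of_mem h1] at h5
    omega
  obtain ⟨π, hπ⟩ := not_not.1 hnb
  have hu' : u ∉ W' := fun h3 => ((hmem u).1 h3).2.1 rfl
  have hv' : v ∉ insert u W' := by
    intro h3
    rcases Finset.mem_insert.1 h3 with h4 | h4
    · exact hne h4.symm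
    · exact ((hmem v).1 h4).2.2 rfl
  have k1 := pack_update G σ hσ W' u hu' c hc x (by
    intro w hw hwu i
    exact hx i w (Finset.mem_filter.2 ⟨hw, hwu.symm⟩))
  have k2 := pack_update G σ hσ (insert u W') v hv' _ k1 π (by
    intro w hw hwv i
    rcases Finset.mem_insert.1 hw with h4 | h4
    · subst h4
      rw [Function.update_self]
      exact hπ _ (Finset.mem_insert_self _ _) i
    · have h5 : w ≠ u := ((hmem w).1 h4).2.1
      rw [Function.update_of_ne h5]
      exact hπ _ (Finset.mem_insert_of_mem (Finset.mem_image_of_mem (fun w => σ w v * c w)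
        (Finset.mem_filter.2 ⟨h4, hwv.symm⟩))) i)
  have h8 : insert v (insert u W') = W := by
    ext w
    rw [Finset.mem_insert, Finset.mem_insert, hmem]
    constructor
    · rintro (h3 | h3 | h3)
      · rw [h3]
        exact hv
      · rw [h3]
        exact hu
      · exact h3.1
    · intro h3
      by_cases h4 : w = v
      · exact Or.inl h4
      · by_cases h5 : w = u
        · exact Or.inr (Or.inl h5)
        · exact Or.inr (Or.inr ⟨h3, h5, h4⟩)
  rw [h8] at k2
  exact ⟨_, k2⟩

end Pool.Agent.PKG
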