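import Pool.Agent.PKG.LemM
import Pool.Agent.PKG.C1

/-!
PKG-TwoStep (MP_36eb6d_co).  Recolouring two neighbours.
(Compare Pool/Agent/PKF/TwoStep.lean, the case `h = 3`.)

Plan.
* `step1`: if `lemM` for `Q` gives the second alternative, then for every `A` with `Deg (2 h) r A` and a
  perfect matching there is a perfect matching `w` of `A` with `¬ Bad (insert w Q)`: `c1` with three
  elements of `F` (`|F| ≥ h - 1 ≥ 3`).
* `lemM` for `Q = insert y Q0` (`|Q| ≤ h`).  Second alternative: `step1` gives `x'`.
  First alternative, `Block Q μ D`: let `i1, i2, i3` be elements of `D`; `c1` gives a perfect matching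
  `x'` of `A1` which does not agree with `μ` on all of `D`.  If `¬ Bad (insert x' Q)`: done.  Otherwise
  `x'` agrees with `μ` on exactly `h` rows of `D`, call this set `S`, and for the last row `w` of `D`,
  `x' w ∉ E := D.image μ` (`x'` is injective, `x' = μ` on `S`, `μ w ≠ x' w`).
  Let `Q' = insert x' Q0`.  We show that `lemM` for `Q'` gives the second alternative (then `step1` for
  `A2` gives `y'`).  Suppose `Block Q' μ' D'`, `|D'| = h + 1`, `E' = D'.image μ'`.  Then
  `Cand h Q' y S E` (for `i ∈ S`, `t ∈ E`: `Block Q μ D` gives `t = μ i = x' i` or `t = y i` or `t = q i`) and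
  `Cand h Q' μ' S' E'` for any `h`-subset `S'` of `D'`.  `cand_AA`: `E = E'`.  `|Q| = h` (`block_facts`), so
  there is a `q ∈ Q0`; it maps `D` onto `E` and `D'` onto `E'` (`block_facts`), so `D = D'`, so
  `x' w ∈ E' = E` (`block_facts` for `Q'`): contradiction.
-/

set_option autoImplicit false

namespace Pool.Agent.PKG

private theorem ts_step1 {h r : ℕ} (hh : 5 ≤ h) (hr : h ≤ r + 1) (Q : Finset (P (2 * h)))
    (μ : P (2 * h)) (F : Finset (Fin (2 * h))) (hF : h ≤ F.card + 1)
    (hall : ∀ d, Bad (insert d Q) → ∀ i ∈ F, d i = μ i)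
    (A : Fin (2 * h) → Fin (2 * h) → Prop) (hA : Deg (2 * h) r A)
    (hPM : ∃ x : P (2 * h), ∀ i, A i (x i)) :
    ∃ w : P (2 * h), (∀ i, A i (w i)) ∧ ¬ Bad (insert w Q) := by
  obtain ⟨i1, i2, i3, m1, m2, m3, h12, h13, h23⟩ := Finset.two_lt_card_iff.1
    (show 2 < F.card by omega)
  obtain ⟨π, hπ, hn⟩ := c1 hh hr A hA hPM μ i1 i2 i3 h12 h13 h23
  exact ⟨π, hπ, fun hb => hn ⟨hall π hb i1 m1, hall π hb i2 m2, hall π hb i3 m3⟩⟩

private theorem ts_image {n : ℕ} {a μ : P n} {D : Finset (Fin n)} (h : ∀ i ∈ D, a i ∈ D.image μ) :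
    D.image a = D.image μ := by
  apply Finset.eq_of_subset_of_card_le
  · intro y hy
    obtain ⟨i, hi, rfl⟩ := Finset.mem_image.1 hy
    exact h i hi
  · rw [Finset.card_image_of_injective _ μ.injective, Finset.card_image_of_injective _ a.injective]

theorem twoStep {h r : ℕ} (hh : 5 ≤ h) (hr : h ≤ r + 1) (Q0 : Finset (P (2 * h)))
    (hQ0 : Q0.card + 1 ≤ h) (y : P (2 * h)) (A1 : Fin (2 * h) → Fin (2 * h) → Prop)
    (hA1 : Deg (2 * h) r A1) (h1 : ∃ x : P (2 * h), ∀ i, A1 i (x i)) :
    ∃ x' : P (2 * h), (∀ i, A1 i (x' i)) ∧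
      (¬ Bad (insert x' (insert y Q0)) ∨
        ∀ A2 : Fin (2 * h) → Fin (2 * h) → Prop, Deg (2 * h) r A2 →
          (∃ y0 : P (2 * h), ∀ i, A2 i (y0 i)) →
          ∃ y' : P (2 * h), (∀ i, A2 i (y' i)) ∧ ¬ Bad (insert y' (insert x' Q0))) := by
  have hQ : (insert y Q0).card ≤ h := (Finset.card_insert_le y Q0).trans hQ0
  obtain ⟨μ, D, hD, h3, hor⟩ := lemM hh (insert y Q0) hQ
  rcases hor with hB | ⟨F, -, hF, hall⟩
  · obtain ⟨i1, i2, i3, hi1, hi2, hi3, h12, h13, h23⟩ := Finset.two_lt_card_iff.1
      (show 2 < D.card by omega)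
    obtain ⟨x', hx', hn⟩ := c1 hh hr A1 hA1 h1 μ i1 i2 i3 h12 h13 h23
    refine ⟨x', hx', ?_⟩
    by_cases hb : Bad (insert x' (insert y Q0))
    · right
      have hS3 := h3 x' hb
      have hex : ∃ w ∈ D, x' w ≠ μ w := by
        by_contra hcon
        push Not at hcon
        exact hn ⟨hcon i1 hi1, hcon i2 hi2, hcon i3 hi3⟩
      obtain ⟨w, hwD, hw⟩ := hex
      have hSsub : D.filter (fun i => x' i = μ i) ⊆ D.erase w := by
        intro i hi
        rw [Finset.mem_filter] at hi
        refine Finset.mem_erase.2 ⟨?_, hi.1⟩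
        rintro rfl
        exact hw hi.2
      have hecard : (D.erase w).card = h := by rw [Finset.card_erase_of_mem hwD, hD]; omega
      have hSeq : D.filter (fun i => x' i = μ i) = D.erase w :=
        Finset.eq_of_subset_of_card_le hSsub (by omega)
      have hScard : (D.filter (fun i => x' i = μ i)).card = h := by rw [hSeq, hecard]
      have hwE : x' w ∉ D.image μ := by
        intro hm
        obtain ⟨s, hs, hse⟩ := Finset.mem_image.1 hm
        by_cases hsw : s = w
        · subst hsw
          exact hw hse.symm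
        · have hsS : s ∈ D.filter (fun i => x' i = μ i) := by
            rw [hSeq]
            exact Finset.mem_erase.2 ⟨hsw, hs⟩
          have h5 := (Finset.mem_filter.1 hsS).2
          exact hsw (x'.injective (h5.trans hse))
      have hQ' : (insert x' Q0).card ≤ h := (Finset.card_insert_le x' Q0).trans hQ0
      have hcand : Cand h (insert x' Q0) y (D.filter (fun i => x' i = μ i)) (D.image μ) := by
        refine ⟨hScard, ?_, ?_⟩
        · rw [Finset.card_image_of_injective _ μ.injective, hD]
        · intro i hi t ht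
          rw [Finset.mem_filter] at hi
          rcases hB i hi.1 t ht with e | ⟨q, hq, e⟩
          · exact Or.inr ⟨x', Finset.mem_insert_self _ _, e.trans hi.2.symm⟩
          · rcases Finset.mem_insert.1 hq with rfl | hq
            · exact Or.inl e
            · exact Or.inr ⟨q, Finset.mem_insert_of_mem hq, e⟩
      obtain ⟨μ', D', hD', -, hor'⟩ := lemM hh (insert x' Q0) hQ'
      rcases hor' with hB' | ⟨F, -, hF, hall'⟩
      · exfalso
        obtain ⟨S', hS', hS'c⟩ := Finset.exists_subset_card_eq (s := D') (n := h) (by omega)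
        have hcand' : Cand h (insert x' Q0) μ' S' (D'.image μ') := by
          refine ⟨hS'c, ?_, fun i hi t ht => hB' i (hS' hi) t ht⟩
          rw [Finset.card_image_of_injective _ μ'.injective, hD']
        have hE : D.image μ = D'.image μ' := cand_AA hh hQ' hcand hcand'
        have f1 := block_facts hQ hD hB
        have f2 := block_facts hQ' hD' hB'
        have hne : Q0.Nonempty := by
          rw [← Finset.card_pos]
          have := Finset.card_insert_le y Q0
          have := f1.1
          omega
        obtain ⟨a, ha⟩ := hne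
        have e1 : D.image a = D.image μ :=
          ts_image fun i hi => (f1.2 i hi).1 a (Finset.mem_insert_of_mem ha)
        have e2 : D'.image a = D'.image μ' :=
          ts_image fun i hi => (f2.2 i hi).1 a (Finset.mem_insert_of_mem ha)
        have e3 : D = D' := by
          apply Finset.image_injective a.injective
          rw [e1, e2, hE]
        refine hwE ?_
        rw [hE]
        exact (f2.2 w (e3 ▸ hwD)).1 x' (Finset.mem_insert_self _ _)
      · intro A2 hA2 hy0
        exact ts_step1 hh hr (insert x' Q0) μ' F hF hall' A2 hA2 hy0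
    · exact Or.inl hb
  · obtain ⟨w, hw, hwb⟩ := ts_step1 hh hr (insert y Q0) μ F hF hall A1 hA1 h1
    exact ⟨w, hw, Or.inl hwb⟩

end Pool.Agent.PKG
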