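import Pool.Agent.PKG.Ext
import Pool.Agent.PKG.TwoStep

/-!
PKG-Ext2 (MP_36eb6d_co).  A vertex `v` of degree `h + 1` with two neighbours `u1`, `u2` of degree
`h + 2` is reducible: recolour `u1` and, if necessary, `u2` (`twoStep`), then colour `v`.
-/

set_option autoImplicit false

namespace Pool.Agent.PKG

variable {V : Type} [DecidableEq V]

private theorem Ext2_recol {h : ℕ} (hh : 5 ≤ h) (G : SimpleGraph V) [DecidableRel G.Adj]
    (σ : V → V → P (2 * h)) (hσ : ∀ u v, G.Adj u v → σ v u = (σ u v).symm) (W : Finset V) (u : V)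
    (hu : u ∈ W) (s : P (2 * h)) (c : V → P (2 * h)) (hc : IsPack G σ W c)
    (hcard : (W.filter (fun w => G.Adj u w)).card ≤ h + 1) :
    ∃ A : Fin (2 * h) → Fin (2 * h) → Prop, Deg (2 * h) (h - 1) A ∧
      (∃ x : P (2 * h), ∀ i, A i (x i)) ∧
      ∀ x' : P (2 * h), (∀ i, A i (x' i)) → IsPack G σ W (Function.update c u (s⁻¹ * x')) := by
  refine ⟨fun i t => ∀ w ∈ W.filter (fun w => G.Adj u w), t ≠ (s * (σ w u * c w)) i,
    deg_compl (W.filter (fun w => G.Adj u w)) (fun w => s * (σ w u * c w)) (h - 1) (by omega),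
    ⟨s * c u, fun i w hw he => ?_⟩, fun x' hx' => ?_⟩
  · rw [Finset.mem_filter] at hw
    have h1 := hc w hw.1 u hu hw.2.symm i
    rw [Equiv.Perm.mul_apply, Equiv.Perm.mul_apply, Equiv.Perm.mul_apply] at he
    exact h1 (s.injective he)
  · have hW : insert u (W.erase u) = W := Finset.insert_erase hu
    have hc' : IsPack G σ (W.erase u) c := fun a ha b hb =>
      hc a (Finset.mem_of_mem_erase ha) b (Finset.mem_of_mem_erase hb)
    have h2 := pack_update G σ hσ (W.erase u) u (Finset.notMem_erase u W) c hc' (s⁻¹ * x') ?_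
    · rwa [hW] at h2
    · intro w hw hwu i he
      have h3 := hx' i w (Finset.mem_filter.2 ⟨Finset.mem_of_mem_erase hw, hwu.symm⟩)
      apply h3
      rw [Equiv.Perm.mul_apply] at he
      rw [Equiv.Perm.mul_apply, Equiv.Perm.mul_apply, ← he]
      exact (Equiv.apply_symm_apply s (x' i)).symm

private theorem Ext2_fin {n : ℕ} (G : SimpleGraph V) (σ : V → V → P n)
    (hσ : ∀ u v, G.Adj u v → σ v u = (σ u v).symm) (W : Finset V) (v : V) (hv : v ∈ W)
    (c : V → P n) (hc : IsPack G σ (W.erase v) c) (Q : Finset (P n))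
    (hN : ∀ z ∈ W, G.Adj v z → σ z v * c z ∈ Q) (h : ¬ Bad Q) : Packable G σ W := by
  unfold Bad at h
  rw [not_not] at h
  obtain ⟨π, hπ⟩ := h
  have h1 := pack_update G σ hσ (W.erase v) v (Finset.notMem_erase v W) c hc π ?_
  · rw [Finset.insert_erase hv] at h1
    exact ⟨_, h1⟩
  · intro z hz hzv i
    exact hπ _ (hN z (Finset.mem_of_mem_erase hz) hzv.symm) i

private theorem Ext2_card {h : ℕ} (G : SimpleGraph V) [DecidableRel G.Adj] (W : Finset V) (v u : V)
    (hv : v ∈ W) (hvu : G.Adj v u) (hd : dg G W u = h + 2) :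
    ((W.erase v).filter (fun w => G.Adj u w)).card ≤ h + 1 := by
  have h1 : (W.erase v).filter (fun w => G.Adj u w) = (W.filter (fun w => G.Adj u w)).erase v := by
    ext w
    simp only [Finset.mem_filter, Finset.mem_erase]
    tauto
  have h2 : (W.filter (fun w => G.Adj u w)).card = h + 2 := hd
  rw [h1, Finset.card_erase_of_mem (Finset.mem_filter.2 ⟨hv, hvu.symm⟩), h2]
  omega

theorem pack_two {h : ℕ} (hh : 5 ≤ h) (G : SimpleGraph V) [DecidableRel G.Adj]
    (σ : V → V → P (2 * h)) (hσ : ∀ u v, G.Adj u v → σ v u = (σ u v).symm) (W : Finset V)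
    (v u1 u2 : V) (hv : v ∈ W) (hu1 : u1 ∈ W) (hu2 : u2 ∈ W) (h12 : u1 ≠ u2)
    (hvu1 : G.Adj v u1) (hvu2 : G.Adj v u2) (hdv : dg G W v = h + 1) (hd1 : dg G W u1 = h + 2)
    (hd2 : dg G W u2 = h + 2) (hp : Packable G σ (W.erase v)) : Packable G σ W := by
  obtain ⟨c, hc⟩ := hp
  have hu1' : u1 ∈ W.erase v := Finset.mem_erase.2 ⟨hvu1.ne', hu1⟩
  have hu2' : u2 ∈ W.erase v := Finset.mem_erase.2 ⟨hvu2.ne', hu2⟩
  -- the neighbours of `v`
  obtain ⟨M, hMd⟩ : ∃ M : Finset V, M = ((W.filter (fun u => G.Adj v u)).erase u1).erase u2 := ⟨_, rfl⟩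
  have hMm : ∀ z, z ∈ M ↔ z ≠ u2 ∧ z ≠ u1 ∧ z ∈ W ∧ G.Adj v z := by
    intro z
    rw [hMd, Finset.mem_erase, Finset.mem_erase, Finset.mem_filter]
  have hMc : M.card + 1 ≤ h := by
    have e1 : u1 ∈ W.filter (fun u => G.Adj v u) := Finset.mem_filter.2 ⟨hu1, hvu1⟩
    have e2 : u2 ∈ (W.filter (fun u => G.Adj v u)).erase u1 :=
      Finset.mem_erase.2 ⟨h12.symm, Finset.mem_filter.2 ⟨hu2, hvu2⟩⟩
    have e4 : (W.filter (fun u => G.Adj v u)).card = h + 1 := hdv
    rw [hMd, Finset.card_erase_of_mem e2, Finset.card_erase_of_mem e1, e4]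
    omega
  have hQc : (M.image fun w => σ w v * c w).card + 1 ≤ h :=
    le_trans (Nat.add_le_add_right Finset.card_image_le 1) hMc
  -- recolour `u1`
  obtain ⟨A1, hA1, hx, hup⟩ := Ext2_recol hh G σ hσ (W.erase v) u1 hu1' (σ u1 v) c hc
    (Ext2_card G W v u1 hv hvu1 hd1)
  obtain ⟨x', hx', halt⟩ := twoStep hh (by omega) (M.image fun w => σ w v * c w) hQc
    (σ u2 v * c u2) A1 hA1 hx
  have hc1 := hup x' hx'
  obtain ⟨c1, hc1d⟩ : ∃ c1 : V → P (2 * h), c1 = Function.update c u1 ((σ u1 v)⁻¹ * x') := ⟨_, rfl⟩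
  rw [← hc1d] at hc1
  have f1 : σ u1 v * c1 u1 = x' := by
    rw [hc1d, Function.update_self, mul_inv_cancel_left]
  have f2 : c1 u2 = c u2 := by rw [hc1d, Function.update_of_ne h12.symm]
  have f3 : ∀ z, z ≠ u1 → c1 z = c z := fun z hz => by rw [hc1d, Function.update_of_ne hz]
  rcases halt with hb | hb
  · refine Ext2_fin G σ hσ W v hv c1 hc1 _ ?_ hb
    intro z hz hvz
    by_cases z1 : z = u1
    · rw [z1, f1]
      exact Finset.mem_insert_self _ _
    by_cases z2 : z = u2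
    · rw [z2, f2]
      exact Finset.mem_insert_of_mem (Finset.mem_insert_self _ _)
    · rw [f3 z z1]
      exact Finset.mem_insert_of_mem (Finset.mem_insert_of_mem
        (Finset.mem_image_of_mem (fun w => σ w v * c w) ((hMm z).2 ⟨z2, z1, hz, hvz⟩)))
  · obtain ⟨A2, hA2, hy, hup2⟩ := Ext2_recol hh G σ hσ (W.erase v) u2 hu2' (σ u2 v) c1 hc1
      (Ext2_card G W v u2 hv hvu2 hd2)
    obtain ⟨y', hy', hnb⟩ := hb A2 hA2 hy
    refine Ext2_fin G σ hσ W v hv _ (hup2 y' hy') _ ?_ hnb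
    intro z hz hvz
    by_cases z2 : z = u2
    · rw [z2, Function.update_self, mul_inv_cancel_left]
      exact Finset.mem_insert_self _ _
    by_cases z1 : z = u1
    · rw [z1, Function.update_of_ne h12, f1]
      exact Finset.mem_insert_of_mem (Finset.mem_insert_self _ _)
    · rw [Function.update_of_ne z2, f3 z z1]
      exact Finset.mem_insert_of_mem (Finset.mem_insert_of_mem
        (Finset.mem_image_of_mem (fun w => σ w v * c w) ((hMm z).2 ⟨z2, z1, hz, hvz⟩)))

end Pool.Agent.PKG
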