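import Pool.Agent.PKG.Hall

/-!
PKG-Family (MP_36eb6d_co).  A permutation avoiding two permutations and two cells for each of at
most `h + 1` indices: a rectangle `S x T` with `|S| + |T| = 2 h + 1` in the complement has at most
`h + 3` rows and columns and at most `2 min (|S|, |T|) + 2 (h + 1)` cells, which is impossible.
-/

set_option autoImplicit false

namespace Pool.Agent.PKG

private theorem Family_arith {h a b : ℕ} (hh : 5 ≤ h) (hab : 2 * h + 1 ≤ a + b) (hle : a ≤ b)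
    (hb : b ≤ h + 3) (hm : a * b ≤ 2 * a + 2 * (h + 1)) : False := by
  obtain ⟨c, rfl⟩ : ∃ c, b = c + 2 := ⟨b - 2, by omega⟩
  have h1 : a * c ≤ 2 * (h + 1) := by
    have : a * (c + 2) = a * c + 2 * a := by ring
    omega
  obtain ⟨g, rfl⟩ : ∃ g, h = g + 5 := ⟨h - 5, by omega⟩
  rcases (by omega : c = g + 4 ∨ c = g + 5 ∨ c = g + 6) with rfl | rfl | rfl
  · have h2 : g + 5 ≤ a := by omega
    nlinarith
  · have h2 : g + 4 ≤ a := by omega
    nlinarith
  · have h2 : g + 3 ≤ a := by omega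
    nlinarith

/-- a column of the rectangle is short -/
private theorem Family_col {n m : ℕ} {V : Type} (N : Finset V) (hN : N.card ≤ m)
    (Q : Finset (Fin n → Fin n)) (hQ : Q.card ≤ 2) (i j s t : V → Fin n)
    (hij : ∀ v ∈ N, i v ≠ j v) (T : Finset (Fin n)) (x : Fin n)
    (hx : ∀ y ∈ T, (∃ q ∈ Q, y = q x) ∨ ∃ v ∈ N, (x = i v ∧ y = s v) ∨ (x = j v ∧ y = t v)) :
    T.card ≤ 2 + m := by
  classical
  have hsub : T ⊆ Q.image (fun q => q x) ∪ N.image (fun v => if x = i v then s v else t v) := by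
    intro y hy
    rw [Finset.mem_union, Finset.mem_image, Finset.mem_image]
    rcases hx y hy with ⟨q, hq, rfl⟩ | ⟨v, hv, h1⟩
    · exact Or.inl ⟨q, hq, rfl⟩
    · right
      refine ⟨v, hv, ?_⟩
      rcases h1 with ⟨h1, h2⟩ | ⟨h1, h2⟩
      · rw [if_pos h1, h2]
      · rw [if_neg, h2]
        intro h3
        exact hij v hv (h3.symm.trans h1)
  calc T.card ≤ _ := Finset.card_le_card hsub
    _ ≤ (Q.image (fun q => q x)).card + (N.image (fun v => if x = i v then s v else t v)).card :=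
      Finset.card_union_le _ _
    _ ≤ Q.card + N.card := add_le_add Finset.card_image_le Finset.card_image_le
    _ ≤ 2 + m := add_le_add hQ hN

/-- the number of cells of the rectangle -/
private theorem Family_cells {n m : ℕ} {V : Type} (N : Finset V) (hN : N.card ≤ m)
    (Q : Finset (Fin n → Fin n)) (hQ : Q.card ≤ 2) (i j s t : V → Fin n)
    (S T : Finset (Fin n))
    (hx : ∀ x ∈ S, ∀ y ∈ T, (∃ q ∈ Q, y = q x) ∨
      ∃ v ∈ N, (x = i v ∧ y = s v) ∨ (x = j v ∧ y = t v)) :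
    S.card * T.card ≤ 2 * S.card + 2 * m := by
  classical
  have hsub : S ×ˢ T ⊆ (S ×ˢ Q).image (fun p => (p.1, p.2 p.1)) ∪
      (N.image (fun v => (i v, s v)) ∪ N.image (fun v => (j v, t v))) := by
    intro p hp
    obtain ⟨x, y⟩ := p
    obtain ⟨h1, h2⟩ := Finset.mem_product.1 hp
    simp only at h1 h2
    rw [Finset.mem_union, Finset.mem_union, Finset.mem_image, Finset.mem_image, Finset.mem_image]
    rcases hx x h1 y h2 with ⟨q, hq, rfl⟩ | ⟨v, hv, ⟨rfl, rfl⟩ | ⟨rfl, rfl⟩⟩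
    · exact Or.inl ⟨(x, q), Finset.mem_product.2 ⟨h1, hq⟩, rfl⟩
    · exact Or.inr (Or.inl ⟨v, hv, rfl⟩)
    · exact Or.inr (Or.inr ⟨v, hv, rfl⟩)
  calc S.card * T.card = (S ×ˢ T).card := (Finset.card_product S T).symm
    _ ≤ _ := Finset.card_le_card hsub
    _ ≤ ((S ×ˢ Q).image (fun p => (p.1, p.2 p.1))).card +
        (N.image (fun v => (i v, s v)) ∪ N.image (fun v => (j v, t v))).card :=
      Finset.card_union_le _ _
    _ ≤ (S ×ˢ Q).card + ((N.image (fun v => (i v, s v))).card +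
        (N.image (fun v => (j v, t v))).card) :=
      add_le_add Finset.card_image_le (Finset.card_union_le _ _)
    _ ≤ S.card * Q.card + (N.card + N.card) := by
      rw [Finset.card_product]
      exact add_le_add le_rfl (add_le_add Finset.card_image_le Finset.card_image_le)
    _ ≤ S.card * 2 + (m + m) := by gcongr
    _ = 2 * S.card + 2 * m := by ring

theorem hall_family {h : ℕ} (hh : 5 ≤ h) {V : Type} (N : Finset V) (hN : N.card ≤ h + 1)
    (Q : Finset (P (2 * h))) (hQ : Q.card ≤ 2) (i j s t : V → Fin (2 * h))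
    (hij : ∀ v ∈ N, i v ≠ j v) (hst : ∀ v ∈ N, s v ≠ t v) :
    ∃ π : P (2 * h), (∀ q ∈ Q, ∀ x, π x ≠ q x) ∧ ∀ v ∈ N, π (i v) ≠ s v ∧ π (j v) ≠ t v := by
  classical
  by_contra hcon
  have hno : ¬ ∃ π : P (2 * h), ∀ x, (∀ q ∈ Q, π x ≠ q x) ∧
      ∀ v ∈ N, ¬ (x = i v ∧ π x = s v) ∧ ¬ (x = j v ∧ π x = t v) := by
    rintro ⟨π, hπ⟩
    exact hcon ⟨π, fun q hq x => (hπ x).1 q hq, fun v hv =>
      ⟨fun e => ((hπ (i v)).2 v hv).1 ⟨rfl, e⟩, fun e => ((hπ (j v)).2 v hv).2 ⟨rfl, e⟩⟩⟩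
  obtain ⟨S, T, hST, hA⟩ := hall_rect (fun x y => (∀ q ∈ Q, y ≠ q x) ∧
      ∀ v ∈ N, ¬ (x = i v ∧ y = s v) ∧ ¬ (x = j v ∧ y = t v)) hno
  have hcov : ∀ x ∈ S, ∀ y ∈ T, (∃ q ∈ Q, y = q x) ∨
      ∃ v ∈ N, (x = i v ∧ y = s v) ∨ (x = j v ∧ y = t v) := by
    intro x hx y hy
    by_contra hc
    apply hA x hx y hy
    refine ⟨fun q hq e => hc (Or.inl ⟨q, hq, e⟩), fun v hv => ⟨fun e => ?_, fun e => ?_⟩⟩
    · exact hc (Or.inr ⟨v, hv, Or.inl e⟩)
    · exact hc (Or.inr ⟨v, hv, Or.inr e⟩)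
  have hS2 : S.card ≤ 2 * h := by
    have := Finset.card_le_univ S
    rwa [Fintype.card_fin] at this
  have hT2 : T.card ≤ 2 * h := by
    have := Finset.card_le_univ T
    rwa [Fintype.card_fin] at this
  obtain ⟨x0, hx0⟩ : S.Nonempty := by
    rw [← Finset.card_pos]
    omega
  obtain ⟨y0, hy0⟩ : T.Nonempty := by
    rw [← Finset.card_pos]
    omega
  -- the permutations and their inverses as functions
  have hQ1 : (Q.image (fun q : P (2 * h) => (q : Fin (2 * h) → Fin (2 * h)))).card ≤ 2 :=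
    Finset.card_image_le.trans hQ
  have hQ2 : (Q.image (fun q : P (2 * h) => ((q⁻¹ : P (2 * h)) : Fin (2 * h) → Fin (2 * h)))).card ≤ 2 :=
    Finset.card_image_le.trans hQ
  have c1 : ∀ x ∈ S, ∀ y ∈ T,
      (∃ q ∈ Q.image (fun q : P (2 * h) => (q : Fin (2 * h) → Fin (2 * h))), y = q x) ∨
      ∃ v ∈ N, (x = i v ∧ y = s v) ∨ (x = j v ∧ y = t v) := by
    intro x hx y hy
    rcases hcov x hx y hy with ⟨q, hq, e⟩ | h1
    · exact Or.inl ⟨q, Finset.mem_image.2 ⟨q, hq, rfl⟩, e⟩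
    · exact Or.inr h1
  have c2 : ∀ y ∈ T, ∀ x ∈ S,
      (∃ q ∈ Q.image (fun q : P (2 * h) => ((q⁻¹ : P (2 * h)) : Fin (2 * h) → Fin (2 * h))), x = q y) ∨
      ∃ v ∈ N, (y = s v ∧ x = i v) ∨ (y = t v ∧ x = j v) := by
    intro y hy x hx
    rcases hcov x hx y hy with ⟨q, hq, e⟩ | ⟨v, hv, ⟨e1, e2⟩ | ⟨e1, e2⟩⟩
    · refine Or.inl ⟨_, Finset.mem_image.2 ⟨q, hq, rfl⟩, ?_⟩
      rw [e]
      exact (Equiv.symm_apply_apply q x).symm
    · exact Or.inr ⟨v, hv, Or.inl ⟨e2, e1⟩⟩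
    · exact Or.inr ⟨v, hv, Or.inr ⟨e2, e1⟩⟩
  have k1 := Family_col N hN _ hQ1 i j s t hij T x0 (c1 x0 hx0)
  have k2 := Family_col N hN _ hQ2 s t i j hst S y0 (c2 y0 hy0)
  have k3 := Family_cells N hN _ hQ1 i j s t S T c1
  have k4 := Family_cells N hN _ hQ2 s t i j T S c2
  rcases le_total S.card T.card with hle | hle
  · exact Family_arith hh hST hle (by omega) k3
  · exact Family_arith hh (by omega) hle (by omega) k4

end Pool.Agent.PKG
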