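import Pool.Agent.PKG.Defs

/-!
PKG-Hall (MP_36eb6d_co).  Hall's theorem on the n x n board and consequences.
(Compare Pool/Agent/PKF/Hall.lean, the same with n = 6.)

Plan.
* `hall_rect`: Mathlib `Finset.all_card_le_biUnion_card_iff_exists_injective` (as in PKF).
* `deg_compl`: as in PKF.
* `hall_two`: `hall_rect` for `A' i t := A i t ∧ ¬ (i = i1 ∧ t = t1) ∧ ¬ (i = i2 ∧ t = t2)`.  Suppose there
  is `S, T` with `|S| + |T| ≥ 2 h + 1` and no `A'` cell in `S x T`.  A row of `S` has at least `h - 1`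
  cells of `A'`, all outside `T`, so `|T| ≤ h + 1`, `|S| ≥ h ≥ 3`, so `S` has a row other than `i1, i2`;
  it has `h` cells of `A'` outside `T`: `|T| ≤ h`, so `|S| ≥ h + 1`.  In the same way with columns
  `|S| ≤ h`: contradiction.
* `hall_half`: `hall_rect`: `|T| ≤ h` and `|S| ≤ h`.
* `extendPerm`: Mathlib `Finset.exists_equiv_extend_of_card_eq` with `t = univ` (as in PKF).
-/

set_option autoImplicit false

namespace Pool.Agent.PKG

theorem hall_rect {n : ℕ} (A : Fin n → Fin n → Prop) (h : ¬ ∃ π : P n, ∀ i, A i (π i)) :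
    ∃ S T : Finset (Fin n), n + 1 ≤ S.card + T.card ∧ ∀ i ∈ S, ∀ t ∈ T, ¬ A i t := by
  classical
  by_contra hc
  have key : ∀ S : Finset (Fin n),
      S.card ≤ (S.biUnion fun i => Finset.univ.filter (A i)).card := by
    intro S
    by_contra hS
    refine hc ⟨S, (S.biUnion fun i => Finset.univ.filter (A i))ᶜ, ?_, ?_⟩
    · have h1 := Finset.card_compl_add_card (S.biUnion fun i => Finset.univ.filter (A i))
      rw [Fintype.card_fin] at h1
      omega
    · intro i hi t ht hA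
      rw [Finset.mem_compl, Finset.mem_biUnion] at ht
      exact ht ⟨i, hi, Finset.mem_filter.2 ⟨Finset.mem_univ t, hA⟩⟩
  obtain ⟨f, hf, hf'⟩ := (Finset.all_card_le_biUnion_card_iff_exists_injective _).1 key
  refine h ⟨Equiv.ofBijective f (Finite.injective_iff_bijective.1 hf), fun i => ?_⟩
  exact (Finset.mem_filter.1 (hf' i)).2

theorem deg_compl {n : ℕ} {ι : Type} (s : Finset ι) (p : ι → P n) (r : ℕ)
    (hr : r + s.card ≤ n) : Deg n r (fun i t => ∀ j ∈ s, t ≠ p j i) := by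
  classical
  have key : ∀ g : ι → Fin n, r ≤ ((s.image g)ᶜ).card := by
    intro g
    have h1 := Finset.card_compl_add_card (s.image g)
    have h2 := Finset.card_image_le (s := s) (f := g)
    rw [Fintype.card_fin] at h1
    omega
  refine ⟨fun i => ⟨(s.image fun j => p j i)ᶜ, key _, ?_⟩,
    fun t => ⟨(s.image fun j => (p j).symm t)ᶜ, key _, ?_⟩⟩
  · intro t ht j hj he
    rw [Finset.mem_compl, Finset.mem_image] at ht
    exact ht ⟨j, hj, he.symm⟩
  · intro i hi j hj he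
    rw [Finset.mem_compl, Finset.mem_image] at hi
    exact hi ⟨j, hj, by rw [he, Equiv.symm_apply_apply]⟩

private theorem hall_lose {n : ℕ} {B B' : Fin n → Prop} {a : Fin n} {r : ℕ}
    (h : ∃ F : Finset (Fin n), r ≤ F.card ∧ ∀ t ∈ F, B t)
    (hB : ∀ t, B t → t ≠ a → B' t) : ∃ F : Finset (Fin n), r ≤ F.card + 1 ∧ ∀ t ∈ F, B' t := by
  obtain ⟨F, h1, h2⟩ := h
  refine ⟨F.erase a, ?_, fun t ht => ?_⟩
  · have := Finset.pred_card_le_card_erase (s := F) (a := a)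
    omega
  · rw [Finset.mem_erase] at ht
    exact hB t (h2 t ht.2) ht.1

private theorem hall_disj {n : ℕ} {B' : Fin n → Prop} {T F : Finset (Fin n)} (h : ∀ t ∈ F, B' t)
    (hT : ∀ t ∈ T, ¬ B' t) : F.card + T.card ≤ n := by
  have hd : Disjoint F T := Finset.disjoint_left.2 fun t h1 h2 => hT t h2 (h t h1)
  rw [← Finset.card_union_of_disjoint hd]
  exact (Finset.card_le_univ _).trans (by rw [Fintype.card_fin])

private theorem hall_pick {n : ℕ} {S : Finset (Fin n)} (h : 3 ≤ S.card) (a b : Fin n) :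
    ∃ i ∈ S, i ≠ a ∧ i ≠ b := by
  by_contra hc
  have hs : S ⊆ {a, b} := by
    intro i hi
    rw [Finset.mem_insert, Finset.mem_singleton]
    by_contra h1
    exact hc ⟨i, hi, fun h2 => h1 (Or.inl h2), fun h2 => h1 (Or.inr h2)⟩
  have h1 := Finset.card_le_card hs
  have h2 : ({a, b} : Finset (Fin n)).card ≤ 2 := Finset.card_le_two
  omega

private theorem hall_side {h : ℕ} (hh : 3 ≤ h) {A' : Fin (2 * h) → Fin (2 * h) → Prop}
    {S T : Finset (Fin (2 * h))} (a b : Fin (2 * h))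
    (h2 : ∀ i, ∃ F : Finset (Fin (2 * h)), h ≤ F.card + 1 ∧ ∀ t ∈ F, A' i t)
    (h3 : ∀ i, i ≠ a → i ≠ b → ∃ F : Finset (Fin (2 * h)), h ≤ F.card ∧ ∀ t ∈ F, A' i t)
    (hc : 2 * h + 1 ≤ S.card + T.card) (hST : ∀ i ∈ S, ∀ t ∈ T, ¬ A' i t) : T.card ≤ h := by
  have hT : T.card ≤ 2 * h := (Finset.card_le_univ _).trans (by rw [Fintype.card_fin])
  have hS : S.Nonempty := Finset.card_pos.1 (by omega)
  obtain ⟨i, hi⟩ := hS
  obtain ⟨F, k1, k2⟩ := h2 i
  have k3 := hall_disj k2 (hST i hi)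
  obtain ⟨j, hj, j1, j2⟩ := hall_pick (S := S) (by omega) a b
  obtain ⟨F', k4, k5⟩ := h3 j j1 j2
  have k6 := hall_disj k5 (hST j hj)
  omega

theorem hall_two {h : ℕ} (hh : 3 ≤ h) (A : Fin (2 * h) → Fin (2 * h) → Prop)
    (hA : Deg (2 * h) h A) (i1 i2 t1 t2 : Fin (2 * h)) (hi : i1 ≠ i2) (ht : t1 ≠ t2) :
    ∃ π : P (2 * h), (∀ i, A i (π i)) ∧ π i1 ≠ t1 ∧ π i2 ≠ t2 := by
  classical
  by_contra hc
  obtain ⟨S, T, h1, h2⟩ := hall_rect
    (fun i t => A i t ∧ ¬ (i = i1 ∧ t = t1) ∧ ¬ (i = i2 ∧ t = t2)) (by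
      rintro ⟨π, hπ⟩
      exact hc ⟨π, fun i => (hπ i).1, fun h => (hπ i1).2.1 ⟨rfl, h⟩, fun h => (hπ i2).2.2 ⟨rfl, h⟩⟩)
  have hT : T.card ≤ h := by
    refine hall_side hh i1 i2 (fun i => ?_) (fun i n1 n2 => ?_) h1 h2
    · by_cases e1 : i = i1
      · exact hall_lose (a := t1) (hA.1 i) fun t h3 h4 =>
          ⟨h3, fun h5 => h4 h5.2, fun h5 => hi (e1.symm.trans h5.1)⟩
      · exact hall_lose (a := t2) (hA.1 i) fun t h3 h4 =>
          ⟨h3, fun h5 => e1 h5.1, fun h5 => h4 h5.2⟩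
    · obtain ⟨F, k1, k2⟩ := hA.1 i
      exact ⟨F, k1, fun t h3 => ⟨k2 t h3, fun h5 => n1 h5.1, fun h5 => n2 h5.1⟩⟩
  have hS : S.card ≤ h := by
    refine hall_side hh
      (A' := fun t i => A i t ∧ ¬ (i = i1 ∧ t = t1) ∧ ¬ (i = i2 ∧ t = t2)) t1 t2
      (fun t => ?_) (fun t n1 n2 => ?_) (S := T) (T := S) (by omega) fun t h3 i h4 => h2 i h4 t h3
    · by_cases e1 : t = t1
      · exact hall_lose (a := i1) (hA.2 t) fun i h3 h4 =>
          ⟨h3, fun h5 => h4 h5.1, fun h5 => ht (e1.symm.trans h5.2)⟩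
      · exact hall_lose (a := i2) (hA.2 t) fun i h3 h4 =>
          ⟨h3, fun h5 => e1 h5.2, fun h5 => h4 h5.1⟩
    · obtain ⟨F, k1, k2⟩ := hA.2 t
      exact ⟨F, k1, fun i h3 => ⟨k2 i h3, fun h5 => n1 h5.2, fun h5 => n2 h5.2⟩⟩
  omega

private theorem hall_side' {h : ℕ} {A : Fin (2 * h) → Fin (2 * h) → Prop}
    {S T : Finset (Fin (2 * h))}
    (h3 : ∀ i, ∃ F : Finset (Fin (2 * h)), h ≤ F.card ∧ ∀ t ∈ F, A i t)
    (hc : 2 * h + 1 ≤ S.card + T.card) (hST : ∀ i ∈ S, ∀ t ∈ T, ¬ A i t) : T.card ≤ h := by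
  have hT : T.card ≤ 2 * h := (Finset.card_le_univ _).trans (by rw [Fintype.card_fin])
  have hS : S.Nonempty := Finset.card_pos.1 (by omega)
  obtain ⟨i, hi⟩ := hS
  obtain ⟨F, k1, k2⟩ := h3 i
  have k3 := hall_disj k2 (hST i hi)
  omega

theorem hall_half {h : ℕ} (A : Fin (2 * h) → Fin (2 * h) → Prop) (hA : Deg (2 * h) h A) :
    ∃ π : P (2 * h), ∀ i, A i (π i) := by
  by_contra hc
  obtain ⟨S, T, h1, h2⟩ := hall_rect A hc
  have hT := hall_side' hA.1 h1 h2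
  have hS := hall_side' (A := fun t i => A i t) (S := T) (T := S) hA.2 (by omega)
    fun t h3 i h4 => h2 i h4 t h3
  omega

theorem extendPerm {n : ℕ} (D : Finset (Fin n)) (f : Fin n → Fin n)
    (hf : ∀ i ∈ D, ∀ j ∈ D, f i = f j → i = j) : ∃ μ : P n, ∀ i ∈ D, μ i = f i := by
  classical
  obtain ⟨g, hg⟩ := Finset.exists_equiv_extend_of_card_eq (t := (Finset.univ : Finset (Fin n)))
    (s := D) (f := f) (by rw [Finset.card_univ]) (Finset.subset_univ _)
    (fun i hi j hj h => hf i hi j hj h)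
  exact ⟨g.trans (Equiv.subtypeUnivEquiv Finset.mem_univ), fun i hi => hg i hi⟩

end Pool.Agent.PKG
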