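import Pool.Agent.PKG.Cand

/-!
PKG-LemMIII (MP_36eb6d_co).  Lemma M, part (III): the candidates of `Q` have one set `S` of rows, and
those of `inv Q` have none or one set `T'`.  (Compare Pool/Agent/PKF/LemMIII.lean, the case `h = 3`.)

* `lemM_IIIa`: every bad `d` has a candidate (`bad_cases`, `hC`), with rows `S` (`huA`) and columns `T`
  (`cand_AA`), and `d = dA` on `S`.  `μ = dA`, `D = insert w S` with any `w ∉ S`, and `F = S`.
* `lemM_IIIb`: `T' ⊆ T` and `S ⊆ S'` (`cand_AC`), so `S' = insert w S`.  For `t ∈ T'` with `e t ∈ S`,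
  `t = dA (e t)`.  `μ = dA` on `S` and `μ w = t` if `e t = w`, `t ∈ T'` (`extendPerm`), `D = S'`; then
  `μ (e t) = t` for all `t ∈ T'`.  A bad `d` agrees with `dA` on `S`, or `d⁻¹ = e` on `T'`.
-/

set_option autoImplicit false

namespace Pool.Agent.PKG

private theorem III_ia {n : ℕ} (q : P n) (x : Fin n) : q⁻¹ (q x) = x := Equiv.symm_apply_apply q x

private theorem III_ai {n : ℕ} (q : P n) (x : Fin n) : q (q⁻¹ x) = x := Equiv.apply_symm_apply q x

private theorem IIIeq {h : ℕ} (hh : 5 ≤ h) {Q : Finset (P (2 * h))} (hQ : Q.card ≤ h)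
    {d d' : P (2 * h)} {S T : Finset (Fin (2 * h))} (h1 : Cand h Q d S T) (h2 : Cand h Q d' S T) :
    ∀ i ∈ S, d' i = d i := by
  intro i hi
  obtain ⟨-, hf⟩ := cand_facts (by omega) hQ h1
  obtain ⟨f1, -, f3, -⟩ := hf i hi
  rcases h2.2.2 i hi (d i) f1 with h3 | ⟨q, hq, h3⟩
  · exact h3.symm
  · exact absurd h3.symm (f3 q hq)

theorem lemM_IIIa {h : ℕ} (hh : 5 ≤ h) {Q : Finset (P (2 * h))} (hQ : Q.card ≤ h)
    {dA : P (2 * h)} {S T : Finset (Fin (2 * h))} (h1 : Cand h Q dA S T)
    (huA : ∀ (d : P (2 * h)) (S1 T1 : Finset (Fin (2 * h))), Cand h Q d S1 T1 → S1 = S)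
    (hC : ∀ (d : P (2 * h)) (S1 T1 : Finset (Fin (2 * h))), ¬ Cand h (inv Q) d S1 T1) :
    Concl h Q := by
  classical
  obtain ⟨w, hw⟩ : ∃ w, w ∉ S := by
    by_contra hcon
    push Not at hcon
    have h2 : S = Finset.univ := Finset.eq_univ_iff_forall.2 hcon
    have h3 := h1.1
    rw [h2, Finset.card_univ, Fintype.card_fin] at h3
    omega
  have key : ∀ d, Bad (insert d Q) → ∀ i ∈ S, d i = dA i := by
    intro d hd
    rcases bad_cases Q hQ d hd with ⟨S1, T1, hc⟩ | ⟨S1, T1, hc⟩
    · have e1 := huA d S1 T1 hc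
      subst e1
      have e2 := cand_AA hh hQ hc h1
      subst e2
      exact IIIeq hh hQ h1 hc
    · exact absurd hc (hC _ _ _)
  refine ⟨dA, insert w S, ?_, ?_, Or.inr ⟨S, Finset.subset_insert _ _, ?_, fun d hd i hi => key d hd i hi⟩⟩
  · rw [Finset.card_insert_of_notMem hw, h1.1]
  · intro d hd
    have h2 : S ⊆ (insert w S).filter (fun i => d i = dA i) := by
      intro i hi
      exact Finset.mem_filter.2 ⟨Finset.mem_insert_of_mem hi, key d hd i hi⟩
    have h3 := Finset.card_le_card h2
    rw [h1.1] at h3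
    exact h3
  · rw [h1.1]
    omega

theorem lemM_IIIb {h : ℕ} (hh : 5 ≤ h) {Q : Finset (P (2 * h))} (hQ : Q.card ≤ h)
    {dA e : P (2 * h)} {S T T' S' : Finset (Fin (2 * h))} (h1 : Cand h Q dA S T)
    (h2 : Cand h (inv Q) e T' S')
    (huA : ∀ (d : P (2 * h)) (S1 T1 : Finset (Fin (2 * h))), Cand h Q d S1 T1 → S1 = S)
    (huC : ∀ (d : P (2 * h)) (T1 S1 : Finset (Fin (2 * h))), Cand h (inv Q) d T1 S1 → T1 = T') :
    Concl h Q := by
  classical
  have hQ' : (inv Q).card ≤ h := by
    rw [card_inv]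
    exact hQ
  obtain ⟨-, hf1⟩ := cand_facts (by omega) hQ h1
  obtain ⟨hc2, hf2⟩ := cand_facts (by omega) hQ' h2
  have hTT : T' ⊆ T := cand_AC hh hQ h1 h2
  have hSS : S ⊆ S' := by
    have h3 : Cand h (inv (inv Q)) dA S T := by
      rw [inv_inv']
      exact h1
    exact cand_AC hh hQ' h2 h3
  obtain ⟨w, hw⟩ : ∃ w, S' \ S = {w} := by
    rw [← Finset.card_eq_one]
    have h3 := Finset.card_sdiff_add_card_eq_card hSS
    rw [h1.1, h2.2.1] at h3
    omega
  have hwS : w ∉ S := by
    have h3 : w ∈ S' \ S := by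
      rw [hw]
      exact Finset.mem_singleton_self w
    exact (Finset.mem_sdiff.1 h3).2
  have hS' : S' = insert w S := by
    rw [← Finset.sdiff_union_of_subset hSS, hw]
    rfl
  have hinv : ∀ q ∈ Q, q⁻¹ ∈ inv Q := fun q hq => mem_inv.2 (by rwa [inv_inv])
  -- `t = dA (e t)`
  have hA : ∀ t ∈ T', e t ∈ S → dA (e t) = t := by
    intro t ht het
    rcases h1.2.2 (e t) het t (hTT ht) with h3 | ⟨q, hq, h3⟩
    · exact h3.symm
    · exfalso
      have h4 := (hf2 t ht).2.2.1 q⁻¹ (hinv q hq)
      apply h4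
      rw [h3, III_ia, ← h3]
  obtain ⟨μ, hμS, hμw⟩ : ∃ μ : P (2 * h), (∀ i ∈ S, μ i = dA i) ∧ ∀ t ∈ T', e t = w → μ w = t := by
    by_cases hex : ∃ t0 ∈ T', e t0 = w
    · obtain ⟨t0, ht0, he0⟩ := hex
      have hne : ∀ i ∈ S, dA i ≠ t0 := by
        have h3 : (inv Q).image (fun q => q t0) = S := by
          refine Finset.eq_of_subset_of_card_le ?_ ?_
          · intro i hi
            obtain ⟨q, hq, rfl⟩ := Finset.mem_image.1 hi
            have h4 := (hf2 t0 ht0).2.1 q hq
            have h5 := (hf2 t0 ht0).2.2.1 q hq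
            rw [hS'] at h4
            rcases Finset.mem_insert.1 h4 with h6 | h6
            · exact absurd (h6.trans he0.symm) h5
            · exact h6
          · rw [Finset.card_image_of_injOn, h1.1, hc2]
            intro q hq q' hq' hqq
            exact (hf2 t0 ht0).2.2.2 q hq q' hq' hqq
        intro i hi hi0
        rw [← h3] at hi
        obtain ⟨q, hq, hqi⟩ := Finset.mem_image.1 hi
        have h4 : q⁻¹ ∈ Q := mem_inv.1 hq
        have hi' : i ∈ S := by
          rw [← h3]
          exact hi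
        have h5 := (hf1 i hi').2.2.1 q⁻¹ h4
        apply h5
        rw [hi0, ← hqi, III_ia]
      obtain ⟨μ, hμ⟩ := extendPerm (insert w S) (fun i => if i = w then t0 else dA i) (by
        intro i hi j hj hij
        by_cases hiw : i = w
        · by_cases hjw : j = w
          · rw [hiw, hjw]
          · rw [if_pos hiw, if_neg hjw] at hij
            exact absurd hij.symm (hne j (Finset.mem_of_mem_insert_of_ne hj hjw))
        · by_cases hjw : j = w
          · rw [if_neg hiw, if_pos hjw] at hij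
            exact absurd hij (hne i (Finset.mem_of_mem_insert_of_ne hi hiw))
          · rw [if_neg hiw, if_neg hjw] at hij
            exact dA.injective hij)
      refine ⟨μ, fun i hi => ?_, fun t ht het => ?_⟩
      · have h3 := hμ i (Finset.mem_insert_of_mem hi)
        rw [if_neg (fun h4 : i = w => hwS (h4 ▸ hi))] at h3
        exact h3
      · have h3 := hμ w (Finset.mem_insert_self _ _)
        rw [if_pos rfl] at h3
        rw [h3]
        exact e.injective (he0.trans het.symm)
    · push Not at hex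
      exact ⟨dA, fun i _ => rfl, fun t ht het => absurd het (hex t ht)⟩
  have hμe : ∀ t ∈ T', μ (e t) = t := by
    intro t ht
    have h3 := (hf2 t ht).1
    rw [hS'] at h3
    rcases Finset.mem_insert.1 h3 with h4 | h4
    · rw [h4]
      exact hμw t ht h4
    · rw [hμS _ h4]
      exact hA t ht h4
  have key : ∀ d, Bad (insert d Q) → (∀ i ∈ S, d i = μ i) ∨ (∀ t ∈ T', d (e t) = μ (e t)) := by
    intro d hd
    rcases bad_cases Q hQ d hd with ⟨S1, T1, hc⟩ | ⟨T1, S1, hc⟩
    · left
      have e1 := huA d S1 T1 hc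
      subst e1
      have e2 := cand_AA hh hQ hc h1
      subst e2
      intro i hi
      rw [hμS i hi]
      exact IIIeq hh hQ h1 hc i hi
    · right
      have e1 := huC _ T1 S1 hc
      subst e1
      have e2 := cand_AA hh hQ' hc h2
      subst e2
      intro t ht
      rw [hμe t ht, ← IIIeq hh hQ' h2 hc t ht, III_ai]
  have hsub : T'.image e ⊆ insert w S := by
    intro i hi
    obtain ⟨t, ht, rfl⟩ := Finset.mem_image.1 hi
    rw [← hS']
    exact (hf2 t ht).1
  have hcard : (T'.image e).card = h := by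
    rw [Finset.card_image_of_injective _ e.injective, h2.1]
  refine ⟨μ, insert w S, ?_, ?_, Or.inr ⟨(T'.image e).erase w, ?_, ?_, ?_⟩⟩
  · rw [Finset.card_insert_of_notMem hwS, h1.1]
  · intro d hd
    rcases key d hd with h3 | h3
    · have h4 : S ⊆ (insert w S).filter (fun i => d i = μ i) := fun i hi =>
        Finset.mem_filter.2 ⟨Finset.mem_insert_of_mem hi, h3 i hi⟩
      have h5 := Finset.card_le_card h4
      rw [h1.1] at h5
      exact h5
    · have h4 : T'.image e ⊆ (insert w S).filter (fun i => d i = μ i) := by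
        intro i hi
        refine Finset.mem_filter.2 ⟨hsub hi, ?_⟩
        obtain ⟨t, ht, rfl⟩ := Finset.mem_image.1 hi
        exact h3 t ht
      have h5 := Finset.card_le_card h4
      rw [hcard] at h5
      exact h5
  · exact (Finset.erase_subset _ _).trans hsub
  · have h3 := Finset.pred_card_le_card_erase (s := T'.image e) (a := w)
    rw [hcard] at h3
    omega
  · intro d hd i hi
    obtain ⟨hiw, hi2⟩ := Finset.mem_erase.1 hi
    rcases key d hd with h3 | h3
    · exact h3 i (Finset.mem_of_mem_insert_of_ne (hsub hi2) hiw)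
    · obtain ⟨t, ht, rfl⟩ := Finset.mem_image.1 hi2
      exact h3 t ht

end Pool.Agent.PKG
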