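import Pool.Agent.PKG.LemMI
import Pool.Agent.PKG.LemMIII

/-!
PKG-LemM (MP_36eb6d_co).  Lemma M: all `d` that are bad with `Q` agree in at least `h` rows of a fixed
set `D` of `h + 1` rows with a fixed permutation `μ`.  (Compare Pool/Agent/PKF/LemM.lean, the case `h = 3`.)
`concl_inv` transfers the conclusion from the inverses; `lemM` collects the cases.
-/

set_option autoImplicit false

namespace Pool.Agent.PKG

private theorem LemM_ai {n : ℕ} (x : P n) (i : Fin n) : x (x⁻¹ i) = i := Equiv.apply_symm_apply x i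

private theorem LemM_ia {n : ℕ} (x : P n) (i : Fin n) : x⁻¹ (x i) = i := Equiv.symm_apply_apply x i

private theorem LemM_bad {n : ℕ} {Q : Finset (P n)} {d : P n} (h : Bad (insert d Q)) :
    Bad (insert d⁻¹ (inv Q)) := by
  rintro ⟨π, hπ⟩
  refine h ⟨π⁻¹, fun q hq i hi => ?_⟩
  have h1 : q⁻¹ ∈ insert d⁻¹ (inv Q) := by
    rcases Finset.mem_insert.1 hq with rfl | hq
    · exact Finset.mem_insert_self _ _
    · exact Finset.mem_insert_of_mem (Finset.mem_image_of_mem _ hq)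
  refine hπ q⁻¹ h1 (q i) ?_
  rw [LemM_ia, ← hi, LemM_ai]

private theorem LemM_eq {n : ℕ} {d μ' : P n} {t : Fin n} (h : d⁻¹ t = μ' t) :
    d (μ' t) = μ'⁻¹ (μ' t) := by
  rw [← h, LemM_ai, h, LemM_ia]

theorem concl_inv {h : ℕ} {Q : Finset (P (2 * h))} (hc : Concl h (inv Q)) : Concl h Q := by
  obtain ⟨μ', D', hD', h3, hor⟩ := hc
  have hDcard : (D'.image μ').card = h + 1 := by
    rw [Finset.card_image_of_injective _ μ'.injective, hD']
  have himg : (D'.image μ').image (μ'⁻¹ : P (2 * h)) = D' := by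
    rw [Finset.image_image]
    have h1 : ((μ'⁻¹ : P (2 * h)) ∘ μ' : Fin (2 * h) → Fin (2 * h)) = id := by
      funext t
      exact LemM_ia μ' t
    rw [h1, Finset.image_id]
  refine ⟨μ'⁻¹, D'.image μ', hDcard, ?_, ?_⟩
  · intro d hd
    refine (h3 d⁻¹ (LemM_bad hd)).trans (Finset.card_le_card_of_injOn μ' ?_ μ'.injective.injOn)
    intro t ht
    rw [Finset.mem_coe, Finset.mem_filter] at ht ⊢
    exact ⟨Finset.mem_image_of_mem _ ht.1, LemM_eq ht.2⟩
  · rcases hor with hB | ⟨F', hF', hcard, hall⟩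
    · left
      intro i hi s hs
      rw [himg] at hs
      rcases hB s hs i hi with h1 | ⟨q, hq, h1⟩
      · left
        rw [h1, LemM_ia]
      · right
        refine ⟨q⁻¹, mem_inv.1 hq, ?_⟩
        rw [h1, LemM_ia]
    · right
      refine ⟨F'.image μ', Finset.image_subset_image hF', ?_, fun d hd i hi => ?_⟩
      · rw [Finset.card_image_of_injective _ μ'.injective]
        exact hcard
      · obtain ⟨t, ht, rfl⟩ := Finset.mem_image.1 hi
        exact LemM_eq (hall d⁻¹ (LemM_bad hd) t ht)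

theorem lemM {h : ℕ} (hh : 5 ≤ h) (Q : Finset (P (2 * h))) (hQ : Q.card ≤ h) :
    ∃ (μ : P (2 * h)) (D : Finset (Fin (2 * h))), D.card = h + 1 ∧
      (∀ d, Bad (insert d Q) → h ≤ (D.filter (fun i => d i = μ i)).card) ∧
      (Block Q μ D ∨
        ∃ F ⊆ D, h ≤ F.card + 1 ∧ ∀ d, Bad (insert d Q) → ∀ i ∈ F, d i = μ i) := by
  show Concl h Q
  have hQ' : (inv Q).card ≤ h := by
    rw [card_inv]
    exact hQ
  by_cases h1 : ∃ d1 d2 S1 S2 T1 T2, Cand h Q d1 S1 T1 ∧ Cand h Q d2 S2 T2 ∧ S1 ≠ S2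
  · obtain ⟨d1, d2, S1, S2, T1, T2, hc1, hc2, hS⟩ := h1
    exact lemM_I hh hQ hc1 hc2 hS
  by_cases h2 : ∃ d1 d2 S1 S2 T1 T2, Cand h (inv Q) d1 S1 T1 ∧ Cand h (inv Q) d2 S2 T2 ∧ S1 ≠ S2
  · obtain ⟨d1, d2, S1, S2, T1, T2, hc1, hc2, hS⟩ := h2
    exact concl_inv (lemM_I hh hQ' hc1 hc2 hS)
  by_cases hA : ∃ dA S T, Cand h Q dA S T
  · obtain ⟨dA, S, T, hcA⟩ := hA
    have huA : ∀ (d : P (2 * h)) (S1 T1 : Finset (Fin (2 * h))), Cand h Q d S1 T1 → S1 = S := by
      intro d S1 T1 hc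
      by_contra hne
      exact h1 ⟨d, dA, S1, S, T1, T, hc, hcA, hne⟩
    by_cases hC : ∃ e T' S', Cand h (inv Q) e T' S'
    · obtain ⟨e, T', S', hcC⟩ := hC
      refine lemM_IIIb hh hQ hcA hcC huA ?_
      intro d T1 S1 hc
      by_contra hne
      exact h2 ⟨d, e, T1, T', S1, S', hc, hcC, hne⟩
    · exact lemM_IIIa hh hQ hcA huA fun d S1 T1 hc => hC ⟨d, S1, T1, hc⟩
  · by_cases hC : ∃ e T' S', Cand h (inv Q) e T' S'
    · obtain ⟨e, T', S', hcC⟩ := hC
      refine concl_inv (lemM_IIIa hh hQ' hcC ?_ ?_)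
      · intro d T1 S1 hc
        by_contra hne
        exact h2 ⟨d, e, T1, T', S1, S', hc, hcC, hne⟩
      · intro d S1 T1 hc
        rw [inv_inv'] at hc
        exact hA ⟨d, S1, T1, hc⟩
    · have hno : ∀ d, ¬ Bad (insert d Q) := by
        intro d hd
        rcases bad_cases Q hQ d hd with ⟨S, T, h⟩ | ⟨S, T, h⟩
        · exact hA ⟨d, S, T, h⟩
        · exact hC ⟨d⁻¹, S, T, h⟩
      obtain ⟨D, -, hD⟩ := Finset.exists_subset_card_eq (s := (Finset.univ : Finset (Fin (2 * h))))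
        (n := h + 1) (by rw [Finset.card_univ, Fintype.card_fin]; omega)
      exact ⟨1, D, hD, fun d hd => (hno d hd).elim, Or.inr ⟨D, Finset.Subset.refl D, by omega,
        fun d hd => (hno d hd).elim⟩⟩

end Pool.Agent.PKG
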