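import Pool.Agent.PKG.Cand

/-!
PKG-LemMI (MP_36eb6d_co).  Lemma M, part (I): there are two candidates of `Q` with different sets of
rows; then there is a block.  `D` is the union of the two sets of rows; every member of `Q` maps it onto
the common set `T` of columns, and `μ` is the missing value in the rows of `D`.
-/

set_option autoImplicit false

namespace Pool.Agent.PKG

private theorem LemMI_inv_app {n : ℕ} (g : P n) (i : Fin n) : g⁻¹ (g i) = i :=
  Equiv.symm_apply_apply g i

private theorem LemMI_app_inv {n : ℕ} (g : P n) (i : Fin n) : g (g⁻¹ i) = i :=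
  Equiv.apply_symm_apply g i

private theorem LemMI_onto {n h : ℕ} {D T : Finset (Fin n)} (g : P n) (hD : D.card = h + 1)
    (hT : T.card = h + 1) (hg : ∀ i ∈ D, g i ∈ T) : D.image g = T := by
  refine Finset.eq_of_subset_of_card_le ?_ ?_
  · intro t ht
    obtain ⟨i, hi, rfl⟩ := Finset.mem_image.1 ht
    exact hg i hi
  · rw [Finset.card_image_of_injective _ g.injective, hD, hT]

private theorem LemMI_back {n : ℕ} {D T : Finset (Fin n)} (g : P n) (hg : D.image g = T) {t : Fin n}
    (ht : t ∈ T) : g⁻¹ t ∈ D := by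
  rw [← hg] at ht
  obtain ⟨i, hi, rfl⟩ := Finset.mem_image.1 ht
  rwa [LemMI_inv_app]

theorem lemM_I {h : ℕ} (hh : 5 ≤ h) {Q : Finset (P (2 * h))} (hQ : Q.card ≤ h)
    {d1 d2 : P (2 * h)} {S1 S2 T1 T2 : Finset (Fin (2 * h))} (h1 : Cand h Q d1 S1 T1)
    (h2 : Cand h Q d2 S2 T2) (hS : S1 ≠ S2) : Concl h Q := by
  classical
  have hTT : T1 = T2 := cand_AA hh hQ h1 h2
  subst hTT
  have hh1 : 1 ≤ h := by omega
  have hS1 : S1.card = h := h1.1
  have hS2 : S2.card = h := h2.1
  have hT : T1.card = h + 1 := h1.2.1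
  obtain ⟨hQc, p1⟩ := cand_facts hh1 hQ h1
  have p2 := (cand_facts hh1 hQ h2).2
  obtain ⟨q0, hq0⟩ : Q.Nonempty := by
    rw [← Finset.card_pos]
    omega
  -- the `h + 1` rows
  have hDge : h + 1 ≤ (S1 ∪ S2).card := by
    by_contra hc
    have h3 : (S1 ∪ S2).card ≤ S1.card := by omega
    have h4 : S1 = S1 ∪ S2 := Finset.eq_of_subset_of_card_le Finset.subset_union_left h3
    have h5 : (S1 ∪ S2).card ≤ S2.card := by omega
    have h6 : S2 = S1 ∪ S2 := Finset.eq_of_subset_of_card_le Finset.subset_union_right h5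
    exact hS (h4.trans h6.symm)
  obtain ⟨D, hDdef⟩ : ∃ D, D = S1 ∪ S2 := ⟨_, rfl⟩
  rw [← hDdef] at hDge
  have mD : ∀ i, i ∈ D ↔ i ∈ S1 ∨ i ∈ S2 := fun i => by rw [hDdef, Finset.mem_union]
  have rows : ∀ i ∈ D, (∀ q ∈ Q, q i ∈ T1) ∧ ∀ q ∈ Q, ∀ q' ∈ Q, q i = q' i → q = q' := by
    intro i hi
    rcases (mD i).1 hi with h | h
    · exact ⟨(p1 i h).2.1, (p1 i h).2.2.2⟩
    · exact ⟨(p2 i h).2.1, (p2 i h).2.2.2⟩
  have hDle : D.card ≤ h + 1 := by
    have h3 : (D.image q0).card ≤ T1.card := by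
      refine Finset.card_le_card ?_
      intro t ht
      obtain ⟨i, hi, rfl⟩ := Finset.mem_image.1 ht
      exact (rows i hi).1 q0 hq0
    rw [Finset.card_image_of_injective _ q0.injective] at h3
    omega
  have hD : D.card = h + 1 := le_antisymm hDle hDge
  have iq : ∀ q ∈ Q, D.image q = T1 := fun q hq => LemMI_onto q hD hT fun i hi => (rows i hi).1 q hq
  -- the missing value
  obtain ⟨f, hfdef⟩ : ∃ f : Fin (2 * h) → Fin (2 * h), f = fun i => if i ∈ S1 then d1 i else d2 i :=
    ⟨_, rfl⟩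
  have f1 : ∀ i, i ∈ S1 → f i = d1 i := fun i hi => by rw [hfdef]; exact if_pos hi
  have f2 : ∀ i, i ∉ S1 → f i = d2 i := fun i hi => by rw [hfdef]; exact if_neg hi
  have hfv : ∀ i ∈ D, f i ∈ T1 ∧ ∀ q ∈ Q, q i ≠ f i := by
    intro i hi
    by_cases h : i ∈ S1
    · rw [f1 i h]
      exact ⟨(p1 i h).1, (p1 i h).2.2.1⟩
    · rw [f2 i h]
      have h' : i ∈ S2 := ((mD i).1 hi).resolve_left h
      exact ⟨(p2 i h').1, (p2 i h').2.2.1⟩
  have fill : ∀ i ∈ D, ∀ t ∈ T1, t = f i ∨ ∃ q ∈ Q, t = q i := by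
    intro i hi t ht
    by_cases h : i ∈ S1
    · rw [f1 i h]
      exact h1.2.2 i h t ht
    · rw [f2 i h]
      exact h2.2.2 i (((mD i).1 hi).resolve_left h) t ht
  have uniq : ∀ i ∈ D, ∀ x ∈ T1, (∀ q ∈ Q, q i ≠ x) → x = f i := by
    intro i hi x hx hq
    rcases fill i hi x hx with h | ⟨q, hqQ, h⟩
    · exact h
    · exact absurd h.symm (hq q hqQ)
  have finj : ∀ i ∈ D, ∀ j ∈ D, f i = f j → i = j := by
    intro i hi j hj hij
    by_contra hne
    obtain ⟨t, htdef⟩ : ∃ t, t = f i := ⟨_, rfl⟩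
    obtain ⟨ht, ta⟩ := hfv i hi
    have tb := (hfv j hj).2
    rw [← hij, ← htdef] at tb
    rw [← htdef] at ht ta
    have key : ∀ (q : P (2 * h)) (l : Fin (2 * h)), q l ≠ t → l ≠ q⁻¹ t := by
      intro q l hl h'
      apply hl
      rw [h', LemMI_app_inv]
    have hcard : (Q.image fun q => q⁻¹ t).card = h := by
      rw [Finset.card_image_of_injOn, hQc]
      intro q hq q' hq' he
      have he' : q⁻¹ t = q'⁻¹ t := he
      have hm := LemMI_back q (iq q hq) ht
      refine (rows _ hm).2 q hq q' hq' ?_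
      rw [LemMI_app_inv, he', LemMI_app_inv]
    have hi' : i ∉ Q.image fun q => q⁻¹ t := by
      intro hm
      obtain ⟨q, hq, he⟩ := Finset.mem_image.1 hm
      exact key q i (ta q hq) he.symm
    have hj' : j ∉ insert i (Q.image fun q => q⁻¹ t) := by
      intro hm
      rcases Finset.mem_insert.1 hm with hm | hm
      · exact hne hm.symm
      · obtain ⟨q, hq, he⟩ := Finset.mem_image.1 hm
        exact key q j (tb q hq) he.symm
    have hsub : insert j (insert i (Q.image fun q => q⁻¹ t)) ⊆ D := by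
      intro l hl
      rcases Finset.mem_insert.1 hl with rfl | hl
      · exact hj
      · rcases Finset.mem_insert.1 hl with rfl | hl
        · exact hi
        · obtain ⟨q, hq, rfl⟩ := Finset.mem_image.1 hl
          exact LemMI_back q (iq q hq) ht
    have := Finset.card_le_card hsub
    rw [Finset.card_insert_of_notMem hj', Finset.card_insert_of_notMem hi', hcard] at this
    omega
  obtain ⟨μ, hμ⟩ := extendPerm D f finj
  have iμ : D.image μ = T1 := LemMI_onto μ hD hT (fun i hi => by rw [hμ i hi]; exact (hfv i hi).1)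
  refine ⟨μ, D, hD, ?_, Or.inl ?_⟩
  · intro d hd
    rcases bad_cases Q hQ d hd with ⟨S, T', h3⟩ | ⟨T', S', h3⟩
    · have e1 : T1 = T' := cand_AA hh hQ h1 h3
      subst e1
      have hsub : S ⊆ D.filter (fun i => d i = μ i) := by
        intro i hi
        obtain ⟨x1, x2, x3, -⟩ := (cand_facts hh1 hQ h3).2 i hi
        have hiD : i ∈ D := by
          have := LemMI_back q0 (iq q0 hq0) (x2 q0 hq0)
          rwa [LemMI_inv_app] at this
        rw [Finset.mem_filter]
        refine ⟨hiD, ?_⟩
        rw [hμ i hiD]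
        exact uniq i hiD _ x1 x3
      have := Finset.card_le_card hsub
      rw [h3.1] at this
      exact this
    · have hQi : (inv Q).card ≤ h := by
        rw [card_inv]
        exact hQ
      have hT' : T' ⊆ T1 := cand_AC hh hQ h1 h3
      have c1 : Cand h (inv (inv Q)) d1 S1 T1 := by
        rw [inv_inv']
        exact h1
      have c2 : Cand h (inv (inv Q)) d2 S2 T1 := by
        rw [inv_inv']
        exact h2
      have s1 : S1 ⊆ S' := cand_AC hh hQi h3 c1
      have s2 : S2 ⊆ S' := cand_AC hh hQi h3 c2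
      have hDS : D = S' := by
        refine Finset.eq_of_subset_of_card_le ?_ ?_
        · rw [hDdef]
          exact Finset.union_subset s1 s2
        · rw [hD, h3.2.1]
      have hsub : T'.image (d⁻¹ : P (2 * h)) ⊆ D.filter (fun i => d i = μ i) := by
        intro i hi
        obtain ⟨t, ht, rfl⟩ := Finset.mem_image.1 hi
        obtain ⟨x1, x2, x3, -⟩ := (cand_facts hh1 hQi h3).2 t ht
        have hiD : d⁻¹ t ∈ D := by rw [hDS]; exact x1
        rw [Finset.mem_filter]
        refine ⟨hiD, ?_⟩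
        rw [hμ _ hiD]
        refine uniq _ hiD _ ?_ ?_
        · rw [LemMI_app_inv]
          exact hT' ht
        · intro q hq he
          have hq' : q⁻¹ ∈ inv Q := by
            rw [mem_inv, inv_inv]
            exact hq
          refine x3 q⁻¹ hq' ?_
          rw [LemMI_app_inv] at he
          have h5 : q⁻¹ (q (d⁻¹ t)) = q⁻¹ t := by rw [he]
          rw [LemMI_inv_app] at h5
          exact h5.symm
      have := Finset.card_le_card hsub
      rw [Finset.card_image_of_injective _ (d⁻¹ : P (2 * h)).injective, h3.1] at this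
      exact this
  · intro i hi t ht
    rw [iμ] at ht
    rw [hμ i hi]
    exact fill i hi t ht

end Pool.Agent.PKG
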