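import Pool.Agent.PKG.Ext
import Pool.Agent.PKG.Family

/-!
PKG-Star (MP_36eb6d_co).  A vertex `u` of degree `h + 3` with `h + 1` neighbours of degree `h + 1` is
reducible.  (Compare Pool/Agent/PKF/Star.lean; here Hall's theorem replaces the counting.)

Plan.  Let `c` pack `W' = (W.erase u) \ N`.  For `v ∈ N` the neighbours of `v` in `W` are `u` and `h`
vertices of `W'` (`N` is independent); let `Q v` be the set of the permutations `σ w v * c w` for these,
and `μ_v, D_v` from `lemM`, and `i v ≠ j v` two elements of `D_v`.  The neighbours of `u` in `W'` are two;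
let `Q` be the set of the permutations `σ w u * c w` for these.  `hall_family` with
`s v = (σ u v).symm (μ_v (i v))`, `t v = (σ u v).symm (μ_v (j v))` gives a permutation `x` for `u`.  For
`v ∈ N`, `d = σ u v * x` differs from `μ_v` in two rows of `D_v`, so it agrees with `μ_v` in at most
`h - 1` of them, so `insert d (Q v)` is not bad: there is `π_v` for `v`.  As `N` is independent, colouring
`u` by `x` and each `v ∈ N` by `π_v` packs `W`.
-/

set_option autoImplicit false

namespace Pool.Agent.PKG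

variable {V : Type} [DecidableEq V]

omit [DecidableEq V] in
private theorem Star_symm {h : ℕ} {G : SimpleGraph V} {σ : V → V → P (2 * h)}
    (hσ : ∀ u v, G.Adj u v → σ v u = (σ u v).symm) {a b : V} (hab : G.Adj a b)
    {x y : Fin (2 * h)} (hne : y ≠ σ a b x) : x ≠ σ b a y := by
  intro h1
  rw [hσ a b hab] at h1
  exact hne (by rw [h1, Equiv.apply_symm_apply])

/-- for a vertex of `N` there are two rows such that a permutation which differs from `μ` in both is
allowed -/
private theorem Star_two {h : ℕ} (hh : 5 ≤ h) (Q : Finset (P (2 * h))) (hQ : Q.card ≤ h) :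
    ∃ (i j : Fin (2 * h)) (μ : P (2 * h)), i ≠ j ∧
      ∀ d, d i ≠ μ i → d j ≠ μ j → ¬ Bad (insert d Q) := by
  classical
  obtain ⟨μ, D, hD, hb, -⟩ := lemM hh Q hQ
  obtain ⟨i, hi, j, hj, hij⟩ := Finset.one_lt_card.1 (show 1 < D.card by omega)
  refine ⟨i, j, μ, hij, fun d h1 h2 hbad => ?_⟩
  have h3 := hb d hbad
  have h4 : D.filter (fun k => d k = μ k) ⊆ (D.erase i).erase j := by
    intro k hk
    rw [Finset.mem_filter] at hk
    rw [Finset.mem_erase, Finset.mem_erase]
    refine ⟨fun e => ?_, fun e => ?_, hk.1⟩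
    · rw [e] at hk; exact h2 hk.2
    · rw [e] at hk; exact h1 hk.2
  have h5 := Finset.card_le_card h4
  rw [Finset.card_erase_of_mem (Finset.mem_erase.2 ⟨hij.symm, hj⟩), Finset.card_erase_of_mem hi,
    hD] at h5
  omega

theorem pack_star {h : ℕ} (hh : 5 ≤ h) (G : SimpleGraph V) [DecidableRel G.Adj]
    (σ : V → V → P (2 * h)) (hσ : ∀ u v, G.Adj u v → σ v u = (σ u v).symm) (W : Finset V)
    (u : V) (hu : u ∈ W) (N : Finset V) (hNW : N ⊆ W)
    (hN : ∀ v ∈ N, G.Adj u v ∧ dg G W v = h + 1) (hind : ∀ v ∈ N, ∀ w ∈ N, ¬ G.Adj v w)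
    (hdu : dg G W u = h + 3) (hNc : N.card = h + 1) (hp : Packable G σ ((W.erase u) \ N)) :
    Packable G σ W := by
  classical
  obtain ⟨c, hc⟩ := hp
  obtain ⟨W', hW'⟩ : ∃ W', W' = (W.erase u) \ N := ⟨_, rfl⟩
  rw [← hW'] at hc
  have hmem : ∀ w, w ∈ W' ↔ w ∈ W ∧ w ≠ u ∧ w ∉ N := by
    intro w
    rw [hW', Finset.mem_sdiff, Finset.mem_erase]
    tauto
  have huN : u ∉ N := fun h1 => G.loopless.irrefl u (hN u h1).1
  -- the neighbours of the vertices of `N`
  have hQv : ∀ v ∈ N, ((W'.filter (fun w => G.Adj v w)).image (fun w => σ w v * c w)).card ≤ h := by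
    intro v hv
    refine Finset.card_image_le.trans ?_
    have h1 : W'.filter (fun w => G.Adj v w) ⊆ (W.filter (fun w => G.Adj v w)).erase u := by
      intro w hw
      rw [Finset.mem_filter, hmem] at hw
      rw [Finset.mem_erase, Finset.mem_filter]
      exact ⟨hw.1.2.1, hw.1.1, hw.2⟩
    have h2 := Finset.card_le_card h1
    rw [Finset.card_erase_of_mem (Finset.mem_filter.2 ⟨hu, (hN v hv).1.symm⟩)] at h2
    have h3 : (W.filter (fun w => G.Adj v w)).card = h + 1 := (hN v hv).2
    have h5 : (W'.filter (fun w => G.Adj v w)).card ≤ (W.filter (fun w => G.Adj v w)).card - 1 := h2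
    exact h5.trans (by rw [h3]; omega)
  have key : ∀ v, ∃ (i j : Fin (2 * h)) (μ : P (2 * h)), v ∈ N → (i ≠ j ∧
      ∀ d, d i ≠ μ i → d j ≠ μ j →
        ¬ Bad (insert d ((W'.filter (fun w => G.Adj v w)).image (fun w => σ w v * c w)))) := by
    intro v
    by_cases hv : v ∈ N
    · obtain ⟨i, j, μ, h1⟩ := Star_two hh _ (hQv v hv)
      exact ⟨i, j, μ, fun _ => h1⟩
    · exact ⟨⟨0, by omega⟩, ⟨0, by omega⟩, 1, fun h1 => (hv h1).elim⟩
  choose i j μ hkey using key
  -- the neighbours of `u`
  have hQu : ((W'.filter (fun w => G.Adj u w)).image (fun w => σ w u * c w)).card ≤ 2 := by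
    refine Finset.card_image_le.trans ?_
    have h1 : W'.filter (fun w => G.Adj u w) ⊆ (W.filter (fun w => G.Adj u w)) \ N := by
      intro w hw
      rw [Finset.mem_filter, hmem] at hw
      rw [Finset.mem_sdiff, Finset.mem_filter]
      exact ⟨⟨hw.1.1, hw.2⟩, hw.1.2.2⟩
    have h2 := Finset.card_le_card h1
    have h4 : N ⊆ W.filter (fun w => G.Adj u w) := fun v hv =>
      Finset.mem_filter.2 ⟨hNW hv, (hN v hv).1⟩
    rw [Finset.card_sdiff_of_subset h4] at h2
    have h3 : (W.filter (fun w => G.Adj u w)).card = h + 3 := hdu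
    omega
  obtain ⟨x, hx1, hx2⟩ := hall_family hh N (by omega) _ hQu i j
    (fun v => (σ u v).symm (μ v (i v))) (fun v => (σ u v).symm (μ v (j v)))
    (fun v hv => (hkey v hv).1)
    (fun v hv e => (hkey v hv).1 ((μ v).injective ((σ u v).symm.injective e)))
  have key2 : ∀ v, ∃ π : P (2 * h), v ∈ N → ∀ q ∈ insert (σ u v * x)
      ((W'.filter (fun w => G.Adj v w)).image (fun w => σ w v * c w)), ∀ k, π k ≠ q k := by
    intro v
    by_cases hv : v ∈ N
    · have h1 := (hkey v hv).2 (σ u v * x)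
        (fun e => (hx2 v hv).1 (by
          rw [Equiv.Perm.mul_apply] at e
          rw [← e, Equiv.symm_apply_apply]))
        (fun e => (hx2 v hv).2 (by
          rw [Equiv.Perm.mul_apply] at e
          rw [← e, Equiv.symm_apply_apply]))
      unfold Bad at h1
      rw [not_not] at h1
      obtain ⟨π, hπ⟩ := h1
      exact ⟨π, fun _ => hπ⟩
    · exact ⟨1, fun h1 => (hv h1).elim⟩
  choose π hπ using key2
  have dir1 : ∀ b ∈ N, ∀ k, π b k ≠ σ u b (x k) := fun b hb k =>
    hπ b hb _ (Finset.mem_insert_self _ _) k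
  have dir2 : ∀ b ∈ N, ∀ a ∈ W', G.Adj a b → ∀ k, π b k ≠ σ a b (c a k) := fun b hb a ha hab k =>
    hπ b hb _ (Finset.mem_insert_of_mem (Finset.mem_image.2
      ⟨a, Finset.mem_filter.2 ⟨ha, hab.symm⟩, rfl⟩)) k
  have dir3 : ∀ a ∈ W', G.Adj a u → ∀ k, x k ≠ σ a u (c a k) := fun a ha hau k =>
    hx1 _ (Finset.mem_image.2 ⟨a, Finset.mem_filter.2 ⟨ha, hau.symm⟩, rfl⟩) k
  refine ⟨fun z => if z ∈ N then π z else if z = u then x else c z, ?_⟩
  intro a ha b hb hab k
  simp only
  by_cases haN : a ∈ N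
  · rw [if_pos haN]
    by_cases hbN : b ∈ N
    · exact (hind a haN b hbN hab).elim
    · rw [if_neg hbN]
      by_cases hbu : b = u
      · rw [if_pos hbu, hbu]
        exact Star_symm hσ (hN a haN).1 (dir1 a haN k)
      · rw [if_neg hbu]
        exact Star_symm hσ hab.symm (dir2 a haN b ((hmem b).2 ⟨hb, hbu, hbN⟩) hab.symm k)
  · rw [if_neg haN]
    by_cases hau : a = u
    · rw [if_pos hau, hau]
      by_cases hbN : b ∈ N
      · rw [if_pos hbN]
        exact dir1 b hbN k
      · rw [if_neg hbN]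
        rw [hau] at hab
        by_cases hbu : b = u
        · rw [hbu] at hab
          exact (G.loopless.irrefl u hab).elim
        · rw [if_neg hbu]
          exact Star_symm hσ hab.symm (dir3 b ((hmem b).2 ⟨hb, hbu, hbN⟩) hab.symm k)
    · rw [if_neg hau]
      have haW := (hmem a).2 ⟨ha, hau, haN⟩
      by_cases hbN : b ∈ N
      · rw [if_pos hbN]
        exact dir2 b hbN a haW hab k
      · rw [if_neg hbN]
        by_cases hbu : b = u
        · rw [if_pos hbu, hbu]
          rw [hbu] at hab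
          exact dir3 a haW hab k
        · rw [if_neg hbu]
          exact hc a haW b ((hmem b).2 ⟨hb, hbu, hbN⟩) hab k

end Pool.Agent.PKG
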