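import Pool.Agent.PKG.Ext2
import Pool.Agent.PKG.Star
import Pool.Agent.PKG.Disch

/-!
PKG-Main (MP_36eb6d_co).  Assembly (compare Pool/Agent/PKF/Main.lean).
-/

set_option autoImplicit false

namespace Pool.Agent.PKG

theorem pairs_card {V : Type} [DecidableEq V] (G : SimpleGraph V) [DecidableRel G.Adj]
    (W : Finset V) :
    ((W ×ˢ W).filter (fun p => G.Adj p.1 p.2)).card = ∑ v ∈ W, dg G W v := by
  rw [Finset.card_filter, Finset.sum_product]
  refine Finset.sum_congr rfl fun v _ => ?_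
  rw [dg, Finset.card_filter]

theorem pack_all {h : ℕ} (hh : 5 ≤ h) {V : Type} [DecidableEq V] (G : SimpleGraph V)
    [DecidableRel G.Adj]
    (hmad : ∀ S : Finset V, S.Nonempty →
      ((S ×ˢ S).filter (fun p => G.Adj p.1 p.2)).card < (h + 2) * S.card)
    (σ : V → V → P (2 * h)) (hσ : ∀ u v, G.Adj u v → σ v u = (σ u v).symm) (W : Finset V) :
    Packable G σ W := by
  induction W using Finset.strongInduction with
  | H W ih =>
    by_contra hW
    have hne : W.Nonempty := by
      rw [Finset.nonempty_iff_ne_empty]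
      rintro rfl
      exact hW ⟨fun _ => 1, fun u hu => absurd hu (Finset.notMem_empty u)⟩
    have h0 : ∀ v ∈ W, h + 1 ≤ dg G W v := by
      intro v hv
      by_contra hlt
      exact hW (pack_small hh G σ hσ W v hv (by omega) (ih _ (Finset.erase_ssubset hv)))
    have h1 : ∀ v ∈ W, dg G W v = h + 1 → ∀ u ∈ W, G.Adj v u → dg G W u ≠ h + 1 := by
      intro v hv hdv u hu hvu hdu
      exact hW (pack_adj hh G σ hσ W v u hv hu hvu hdv hdu
        (ih _ (lt_of_le_of_lt (Finset.erase_subset u (W.erase v)) (Finset.erase_ssubset hv))))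
    have h2 : ∀ v ∈ W, dg G W v = h + 1 → ∀ u1 ∈ W, ∀ u2 ∈ W, G.Adj v u1 → G.Adj v u2 →
        dg G W u1 = h + 2 → dg G W u2 = h + 2 → u1 = u2 := by
      intro v hv hdv u1 hu1 u2 hu2 hv1 hv2 hd1 hd2
      by_contra h12
      exact hW (pack_two hh G σ hσ W v u1 u2 hv hu1 hu2 h12 hv1 hv2 hdv hd1 hd2
        (ih _ (Finset.erase_ssubset hv)))
    have h3 : ∀ u ∈ W, dg G W u = h + 3 →
        (W.filter (fun v => G.Adj u v ∧ dg G W v = h + 1)).card ≤ h := by
      intro u hu hd
      by_contra hlt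
      have hle : h + 1 ≤ (W.filter (fun v => G.Adj u v ∧ dg G W v = h + 1)).card := by omega
      obtain ⟨N, hN, hNc⟩ := Finset.exists_subset_card_eq hle
      refine hW (pack_star hh G σ hσ W u hu N (hN.trans (Finset.filter_subset _ _)) ?_ ?_ hd
        hNc ?_)
      · intro v hv
        exact (Finset.mem_filter.1 (hN hv)).2
      · intro v hv w hw hvw
        have hv' := Finset.mem_filter.1 (hN hv)
        have hw' := Finset.mem_filter.1 (hN hw)
        exact h1 v hv'.1 hv'.2.2 w hw'.1 hvw hw'.2.2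
      · exact ih _ (lt_of_le_of_lt Finset.sdiff_subset (Finset.erase_ssubset hu))
    have h4 := disch hh G W h0 h1 h2 h3
    have h5 := hmad W hne
    rw [pairs_card] at h5
    omega

theorem main (k n : ℕ) (hk : 7 ≤ k) (hn : n + 4 = 2 * k) (V : Type) [Fintype V] [DecidableEq V]
    (G : SimpleGraph V) [DecidableRel G.Adj]
    (hmad : ∀ S : Finset V, S.Nonempty →
      ((S ×ˢ S).filter (fun p => G.Adj p.1 p.2)).card < k * S.card)
    (σ : V → V → Equiv.Perm (Fin n)) (hσ : ∀ u v, G.Adj u v → σ v u = (σ u v).symm) :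
    ∃ c : Fin n → V → Fin n,
      (∀ v, Function.Injective (fun i => c i v)) ∧
      ∀ i u v, G.Adj u v → c i v ≠ σ u v (c i u) := by
  obtain ⟨h, rfl⟩ : ∃ h, k = h + 2 := ⟨k - 2, by omega⟩
  obtain rfl : n = 2 * h := by omega
  obtain ⟨c, hc⟩ := pack_all (by omega : 5 ≤ h) G hmad σ hσ Finset.univ
  refine ⟨fun i v => c v i, fun v => (c v).injective, fun i u v huv => ?_⟩
  exact hc u (Finset.mem_univ u) v (Finset.mem_univ v) huv i

end Pool.Agent.PKG
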